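import Pool.Agent.Helper41.KV.GoalsC

/-! CSTEP: one step of the inner expansion (packet KV-CSTEP). -/

set_option linter.unusedVariables false
set_option linter.unusedSectionVars false

namespace Pool.Agent.Helper41.KV.CStep19

open Real MeasureTheory

/-! ### smallness -/

theorem lim_zero {m : ℕ} {a B : ℝ} (h : ∀ r : ℝ, 0 < r → r ≤ 1 → |r ^ m * a| ≤ B * r ^ (m + 1)) :
    a = 0 := by
  by_contra ha
  have hpos : 0 < |a| := abs_pos.2 ha
  have h1 : ∀ r : ℝ, 0 < r → r ≤ 1 → |a| ≤ B * r := by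
    intro r hr hr1
    have h2 := h r hr hr1
    rw [abs_mul, abs_of_pos (pow_pos hr m), pow_succ] at h2
    have hp := pow_pos hr m
    have h3 : r ^ m * |a| ≤ r ^ m * (B * r) := by linarith
    exact le_of_mul_le_mul_left h3 hp
  have hB : 0 < |B| + 1 := by positivity
  have hr0 : 0 < min 1 (|a| / (2 * (|B| + 1))) := lt_min one_pos (by positivity)
  have h2 := h1 _ hr0 (min_le_left _ _)
  have h3 : min 1 (|a| / (2 * (|B| + 1))) ≤ |a| / (2 * (|B| + 1)) := min_le_right _ _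
  have h4 : B * min 1 (|a| / (2 * (|B| + 1))) ≤ (|B| + 1) * (|a| / (2 * (|B| + 1))) := by
    apply mul_le_mul _ h3 hr0.le hB.le
    linarith [le_abs_self B]
  have h5 : (|B| + 1) * (|a| / (2 * (|B| + 1))) = |a| / 2 := by
    field_simp
  linarith

theorem MT_bound (hM2 : S_MCL2) {m : ℕ} {Ψ : F3} (hΨ : Ψ ∈ MT m) (l y : ℝ) :
    ∃ B, ∀ r : ℝ, 0 < r → r ≤ 1 → |Ψ r l y| ≤ B * r ^ m := by
  obtain ⟨C, n, h⟩ := hM2.2.2.1 m Ψ hΨ
  rcases le_total 0 y with hy | hy
  · refine ⟨C * (1 + |l|) ^ n * Real.exp (-(y / 2)), fun r hr hr1 => ?_⟩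
    have := (h r l y hr hr1).1 hy
    linarith
  · refine ⟨C * (1 + |l|) ^ n * (1 + |y|) ^ n, fun r hr hr1 => ?_⟩
    have := (h r l y hr hr1).2 hy
    linarith

theorem mem_LT_of_lif (hM2 : S_MCL2) {m : ℕ} {e : ℝ → ℝ → ℝ} (h : lif m e ∈ MT m) :
    e ∈ LT := by
  obtain ⟨e', he', h2⟩ := hM2.1 m _ h
  have : e = e' := by
    funext l y
    obtain ⟨B, hB⟩ := MT_bound hM2 h2 l y
    have h3 : e l y - e' l y = 0 := by
      refine lim_zero (m := m) (B := B) fun r hr hr1 => ?_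
      have h4 := hB r hr hr1
      have h5 : (lif m e - lif m e') r l y = r ^ m * (e l y - e' l y) := by
        simp only [Pi.sub_apply, lif]; ring
      rw [h5] at h4
      exact h4
    linarith
  rw [this]; exact he'

/-! ### smoothness and integrability of the members of `LT` -/

theorem contDiff_LT (hM : S_MCL1) {e : ℝ → ℝ → ℝ} (he : e ∈ LT) :
    ContDiff ℝ (⊤ : ℕ∞) (fun p : ℝ × ℝ => e p.1 p.2) := by
  obtain ⟨-, -, -, -, -, -, -, -, -, -, -, -, -, h14, -, -, h17, -⟩ := hM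
  have h1 := h17 _ (h14 0 e he)
  have h2 : ContDiff ℝ (⊤ : ℕ∞) (fun p : ℝ × ℝ => ((0 : ℝ), p.1, p.2)) := by fun_prop
  have h3 := h1.comp h2
  simpa [lif, Function.comp_def] using h3

theorem contDiff_y (hM : S_MCL1) {e : ℝ → ℝ → ℝ} (he : e ∈ LT) (l : ℝ) :
    ContDiff ℝ (⊤ : ℕ∞) (e l) := by
  have h1 := contDiff_LT hM he
  have h2 : ContDiff ℝ (⊤ : ℕ∞) (fun y : ℝ => (l, y)) := by fun_prop
  exact h1.comp h2

theorem contDiff_l (hM : S_MCL1) {e : ℝ → ℝ → ℝ} (he : e ∈ LT) (y : ℝ) :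
    ContDiff ℝ (⊤ : ℕ∞) (fun l => e l y) := by
  have h1 := contDiff_LT hM he
  have h2 : ContDiff ℝ (⊤ : ℕ∞) (fun l : ℝ => (l, y)) := by fun_prop
  exact h1.comp h2

theorem isE_Q (hQ : S_QF) : IsE Q := by
  refine ⟨hQ.1, fun k μ hμ => ?_⟩
  obtain ⟨C, hC⟩ := hQ.2.2.2.2.2.2.1 k
  refine ⟨|C|, fun y => (hC y).trans ?_⟩
  have h1 : Real.exp (-|y|) ≤ Real.exp (-(μ * |y|)) := by
    apply Real.exp_le_exp.2
    have := abs_nonneg y
    nlinarith
  exact mul_le_mul (le_abs_self C) h1 (Real.exp_pos _).le (abs_nonneg _)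

theorem isP_const (hE : S_ECL1) (c : ℝ) : IsP (fun _ : ℝ => c) := by
  have h := hE.2.2.2.2.2.2.2.2.2.2.2.1 (Polynomial.C c)
  simpa using h

theorem isP_of_isT (hE : S_ECL1) {a : ℝ → ℝ} (ha : IsT a) : IsP a := by
  obtain ⟨q, hq⟩ := ha
  have hE' := hE
  obtain ⟨h1, h2, -, -, h5, -, -, h8, -, -, -, h12, h13, -⟩ := hE
  have e1 : IsP (fun y => a y - q.eval y * chiM y) := h2 _ (h1 _ hq)
  have e2 : IsP chiM := by
    have e3 : IsP (fun y => (1 / 2 : ℝ)) := isP_const hE' _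
    have e4 : IsP (fun y => (-1 / 2 : ℝ) * Real.tanh (2 * y)) := h8 _ _ (isP_const hE' _) h13
    have e5 := h5 _ _ e3 e4
    have e6 : chiM = fun y => (1 / 2 : ℝ) + (-1 / 2 : ℝ) * Real.tanh (2 * y) := by
      funext y; unfold chiM; ring
    rw [e6]; exact e5
  have e7 := h5 _ _ e1 (h8 _ _ (h12 q) e2)
  have e8 : a = fun y => (a y - q.eval y * chiM y) + q.eval y * chiM y := by
    funext y; ring
  rw [e8]; exact e7

/-- `e l` is polynomially bounded for `e ∈ LT` -/
theorem isP_LT (hE : S_ECL1) {e : ℝ → ℝ → ℝ} (he : e ∈ LT) (l : ℝ) : IsP (e l) := by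
  have hE' := hE
  obtain ⟨h1, h2, -, -, h5, -, -, h8, -, -, -, h12, h13, -⟩ := hE
  induction he using Submodule.span_induction with
  | mem x hx =>
    obtain ⟨n, a, ha, rfl⟩ := hx
    exact h8 _ _ (isP_const hE' (l ^ n)) (isP_of_isT hE' ha)
  | zero => exact isP_const hE' 0
  | add x y _ _ hx hy => exact h5 _ _ hx hy
  | smul c x _ hx => exact h8 _ _ (isP_const hE' c) hx

theorem int_LT (hQ : S_QF) (hE : S_ECL1) {e : ℝ → ℝ → ℝ} (he : e ∈ LT) (l : ℝ) :
    Integrable (fun y => e l y * Q y) :=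
  hE.2.2.2.2.2.2.2.2.2.2.2.2.2.2.2.1 _ _ (isP_LT hE he l) (isE_Q hQ)

theorem intQ_pos (hQ : S_QF) (hE : S_ECL1) : 0 < ∫ y, Q y := by
  have hpos := hQ.2.1
  have hint : Integrable Q := hE.2.2.2.2.2.2.2.2.2.2.2.2.2.2.2.2 _ (isE_Q hQ)
  rw [integral_pos_iff_support_of_nonneg (fun y => (hpos y).le) hint]
  have : Function.support Q = Set.univ := by
    ext y
    simp [Function.mem_support, (hpos y).ne']
  rw [this]
  simp

/-! ### membership in `LT`, `LP` -/

theorem LT_of_isT {a : ℝ → ℝ} (ha : IsT a) : (fun (_ : ℝ) y => a y) ∈ LT := by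
  refine Submodule.subset_span ⟨0, a, ha, ?_⟩
  funext l y; simp

theorem isT_of_isE {a : ℝ → ℝ} (ha : IsE a) : IsT a := by
  refine ⟨0, ?_⟩
  unfold HasTail
  simpa using ha

theorem poly_mul_LT {a : ℝ → ℝ} (ha : IsT a) (q : Polynomial ℝ) :
    (fun l y => q.eval l * a y) ∈ LT := by
  have h1 : (fun l y => q.eval l * a y) =
      ∑ n ∈ Finset.range (q.natDegree + 1), q.coeff n • (fun (l : ℝ) (y : ℝ) => l ^ n * a y) := by
    funext l y
    rw [Polynomial.eval_eq_sum_range, Finset.sum_mul, Finset.sum_apply, Finset.sum_apply]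
    refine Finset.sum_congr rfl fun n _ => ?_
    simp only [Pi.smul_apply, smul_eq_mul]
    ring
  rw [h1]
  refine Submodule.sum_mem _ fun n _ => Submodule.smul_mem _ _ ?_
  exact Submodule.subset_span ⟨n, a, ha, rfl⟩

theorem poly_mul_LP (i : ℕ) (q : Polynomial ℝ) :
    (fun l y => q.eval l * y ^ i) ∈ LP := by
  have h1 : (fun l y => q.eval l * y ^ i) =
      ∑ n ∈ Finset.range (q.natDegree + 1), q.coeff n • (fun (l : ℝ) (y : ℝ) => l ^ n * y ^ i) := by
    funext l y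
    rw [Polynomial.eval_eq_sum_range, Finset.sum_mul, Finset.sum_apply, Finset.sum_apply]
    refine Finset.sum_congr rfl fun n _ => ?_
    simp only [Pi.smul_apply, smul_eq_mul]
    ring
  rw [h1]
  refine Submodule.sum_mem _ fun n _ => Submodule.smul_mem _ _ ?_
  exact Submodule.subset_span ⟨n, i, rfl⟩

/-- the coefficient of `ρ^(j+2)` in EXP -/
noncomputable def XX (α k : ℝ) (w1 : ℝ → ℝ) (j : ℕ) (f1 f2 ω : ℝ → ℝ → ℝ) : ℝ → ℝ → ℝ :=
  fun l y => 2 * α * ((j : ℝ) + 1) * ω l y + deriv (fun l' => ω l' y) l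
          + deriv (fun y' => 5 * Q y' ^ 4 * f2 l y'
              + 20 * Q y' ^ 3 * (k + w1 y') * (f1 l y' + ω l y')) y
          - (2 * α + 1) * (ω l y / 2 + y * deriv (ω l) y)

theorem XX_mem (hM : S_MCL1) (hM2 : S_MCL2) (α k : ℝ) {w1 : ℝ → ℝ} (hw1 : IsT w1) (j : ℕ)
    {f1 f2 ω : ℝ → ℝ → ℝ} (h1 : f1 ∈ LP) (h2 : f2 ∈ LP) (hω : ω ∈ LT) :
    XX α k w1 j f1 f2 ω ∈ LT := by
  obtain ⟨-, -, m3, m4, -, m6, -, m8, -, -, -, m12, -, m14, m15, m16, -, -⟩ := hM
  apply mem_LT_of_lif hM2 (m := 0)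
  have hω' := m14 0 ω hω
  have hf1 := m15 0 f1 h1
  have hf2 := m15 0 f2 h2
  have hw := m14 0 _ (LT_of_isT hw1)
  have hQ2 := m3 0 0 _ _ m16 m16
  have hQ3 := m3 0 0 _ _ hQ2 m16
  have hQ4 := m3 0 0 _ _ hQ3 m16
  have a1 := m4 0 0 _ _ hf2 hQ4
  have a2 := m4 0 0 _ _ hf1 hQ3
  have a3 := m3 0 0 _ _ hω' hQ3
  have a4 := m3 0 0 _ _ hw a2
  have a5 := m3 0 0 _ _ hw a3
  have hN := add_mem (Submodule.smul_mem _ (5 : ℝ) a1) (Submodule.smul_mem _ (20 : ℝ)
    (add_mem (Submodule.smul_mem _ k (add_mem a2 a3)) (add_mem a4 a5)))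
  have hdN := m6 0 _ hN
  have hD := m8 α 0 _ hω'
  have hY := m12 0 _ (m6 0 _ hω')
  have htot := sub_mem (add_mem (add_mem (Submodule.smul_mem _ (2 * α * ((j : ℝ) + 1)) hω') hD) hdN)
    (Submodule.smul_mem _ (2 * α + 1) (add_mem (Submodule.smul_mem _ (1 / 2 : ℝ) hω') hY))
  convert htot using 1
  funext r l y
  simp only [XX, lif, Dop, dY, Pi.add_apply, Pi.sub_apply, Pi.smul_apply, smul_eq_mul, pow_zero,
    one_mul, deriv_const, mul_zero, zero_add]
  have e1 : (fun y' => 5 * (f2 l y' * (Q y' * Q y' * Q y' * Q y')) +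
      20 * (k * (f1 l y' * (Q y' * Q y' * Q y') + ω l y' * (Q y' * Q y' * Q y')) +
        (w1 y' * (f1 l y' * (Q y' * Q y' * Q y')) + w1 y' * (ω l y' * (Q y' * Q y' * Q y'))))) =
      fun y' => 5 * Q y' ^ 4 * f2 l y' + 20 * Q y' ^ 3 * (k + w1 y') * (f1 l y' + ω l y') := by
    funext y'; ring
  rw [e1]; ring

/-! ### linearity of `Lop` -/

theorem Lop_add_smul {f g : ℝ → ℝ} (hf : ContDiff ℝ (⊤ : ℕ∞) f) (hg : ContDiff ℝ (⊤ : ℕ∞) g)
    (c : ℝ) (y : ℝ) : Lop (fun y => f y + c * g y) y = Lop f y + c * Lop g y := by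
  obtain ⟨hf1, hf2⟩ := contDiff_infty_iff_deriv.1 hf
  obtain ⟨hg1, hg2⟩ := contDiff_infty_iff_deriv.1 hg
  obtain ⟨hf3, -⟩ := contDiff_infty_iff_deriv.1 hf2
  obtain ⟨hg3, -⟩ := contDiff_infty_iff_deriv.1 hg2
  have e1 : deriv (fun y => f y + c * g y) = fun y => deriv f y + c * deriv g y := by
    funext z
    exact ((hf1 z).hasDerivAt.add ((hg1 z).hasDerivAt.const_mul c)).deriv
  unfold Lop
  rw [e1]
  have e2 : deriv (fun y => deriv f y + c * deriv g y) y =
      deriv (deriv f) y + c * deriv (deriv g) y :=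
    ((hf3 y).hasDerivAt.add ((hg3 y).hasDerivAt.const_mul c)).deriv
  rw [e2]; ring

theorem Lop_contDiff (hQ : S_QF) {f : ℝ → ℝ} (hf : ContDiff ℝ (⊤ : ℕ∞) f) :
    ContDiff ℝ (⊤ : ℕ∞) (Lop f) := by
  obtain ⟨hf1, hf2⟩ := contDiff_infty_iff_deriv.1 hf
  obtain ⟨hf3, hf4⟩ := contDiff_infty_iff_deriv.1 hf2
  exact (hf4.neg.add hf).sub ((contDiff_const.mul (hQ.1.pow 4)).mul hf)

/-- splitting of `XX` -/
theorem XX_split (hQ : S_QF) (hM : S_MCL1) (α k β : ℝ) {w1 R : ℝ → ℝ}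
    (hw1 : ContDiff ℝ (⊤ : ℕ∞) w1) (hR : ContDiff ℝ (⊤ : ℕ∞) R) (j : ℕ)
    {ω0 : ℝ → ℝ → ℝ} (hω : ω0 ∈ LT) (q : Polynomial ℝ) (l y : ℝ) :
    XX α k w1 j (fun l _ => q.eval l) (fun l y => y * (q.derivative.eval l + β * q.eval l))
      (fun l y => ω0 l y + q.eval l * R y) l y =
    XX α k w1 j (fun _ _ => 0) (fun _ _ => 0) ω0 l y +
      (2 * α * ((j : ℝ) + 1) * (q.eval l * R y) + q.derivative.eval l * R y
        + deriv (fun y' => 5 * Q y' ^ 4 * (y' * (q.derivative.eval l + β * q.eval l))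
            + 20 * Q y' ^ 3 * (k + w1 y') * (q.eval l + q.eval l * R y')) y
        - (2 * α + 1) * (q.eval l * R y / 2 + y * (q.eval l * deriv R y))) := by
  have hωl := contDiff_l hM hω y
  have hωy := contDiff_y hM hω l
  have d1 : DifferentiableAt ℝ (fun l => ω0 l y) l := (contDiff_infty_iff_deriv.1 hωl).1 l
  have d2 : DifferentiableAt ℝ (ω0 l) y := (contDiff_infty_iff_deriv.1 hωy).1 y
  have dR : DifferentiableAt ℝ R y := (contDiff_infty_iff_deriv.1 hR).1 y
  have dQ : DifferentiableAt ℝ Q y := (contDiff_infty_iff_deriv.1 hQ.1).1 y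
  have dw : DifferentiableAt ℝ w1 y := (contDiff_infty_iff_deriv.1 hw1).1 y
  have e1 : deriv (fun l' => ω0 l' y + q.eval l' * R y) l =
      deriv (fun l' => ω0 l' y) l + q.derivative.eval l * R y :=
    (d1.hasDerivAt.add ((q.hasDerivAt l).mul_const (R y))).deriv
  have e2 : deriv (fun y => ω0 l y + q.eval l * R y) y =
      deriv (ω0 l) y + q.eval l * deriv R y :=
    (d2.hasDerivAt.add (dR.hasDerivAt.const_mul (q.eval l))).deriv
  have e3 : deriv (fun y' => 5 * Q y' ^ 4 * (y' * (q.derivative.eval l + β * q.eval l))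
              + 20 * Q y' ^ 3 * (k + w1 y') * (q.eval l + (ω0 l y' + q.eval l * R y'))) y =
      deriv (fun y' => 5 * Q y' ^ 4 * 0 + 20 * Q y' ^ 3 * (k + w1 y') * (0 + ω0 l y')) y +
      deriv (fun y' => 5 * Q y' ^ 4 * (y' * (q.derivative.eval l + β * q.eval l))
            + 20 * Q y' ^ 3 * (k + w1 y') * (q.eval l + q.eval l * R y')) y := by
    have dA : DifferentiableAt ℝ
        (fun y' => 5 * Q y' ^ 4 * 0 + 20 * Q y' ^ 3 * (k + w1 y') * (0 + ω0 l y')) y := by
      fun_prop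
    have dB : DifferentiableAt ℝ
        (fun y' => 5 * Q y' ^ 4 * (y' * (q.derivative.eval l + β * q.eval l))
            + 20 * Q y' ^ 3 * (k + w1 y') * (q.eval l + q.eval l * R y')) y := by
      fun_prop
    rw [← deriv_fun_add dA dB]
    congr 1
    funext y'
    ring
  unfold XX
  rw [e1, e2, e3]
  ring

end Pool.Agent.Helper41.KV.CStep19

namespace Pool.Agent.Helper41.KV

open Real MeasureTheory

open CStep19 in
theorem thm_CSTEP (hQ : S_QF) (hE : S_ECL1) (hM : S_MCL1) (hM2 : S_MCL2) (hX : S_EXP)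
    (hP : S_PAIR) (hL : S_LSOLVE) : S_CSTEP := by
  intro α R P hα0 hα1 hRP j F w e ω0 hj hF hw hF1 hw1 he hω0 hB hint hLω
  obtain ⟨pT, pa, pb, pc, pd, pe⟩ := hP α R P hRP
  obtain ⟨l1, l2, l3, l4⟩ := hL
  have hI := intQ_pos hQ hE
  have hRs : ContDiff ℝ (⊤ : ℕ∞) R := hRP.R_E.1
  have hw1s : ContDiff ℝ (⊤ : ℕ∞) (wOne α R P) := (isP_of_isT hE pT).1
  obtain ⟨e2, he2, hB2⟩ := hM2.1 (j + 2) _ hB
  have hz : (fun (_ : ℝ) (_ : ℝ) => (0 : ℝ)) ∈ LP := Submodule.zero_mem _
  have hX0 : XX α (kOne α) (wOne α R P) j (fun _ _ => 0) (fun _ _ => 0) ω0 ∈ LT :=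
    XX_mem hM hM2 α (kOne α) pT j hz hz hω0
  obtain ⟨K, hK⟩ := l2 _ (add_mem he2 hX0)
  obtain ⟨q, hq⟩ := l3 (2 * α * j - 2 * α - 2) (Polynomial.C (-(4 / ∫ y, Q y)) * K)
  refine ⟨q, ?_, ?_⟩
  · intro δ hδ
    have hf1 : (fun (l : ℝ) (_ : ℝ) => q.eval l) ∈ LP := by
      have h := poly_mul_LP 0 q
      simpa using h
    have hf2 : (fun (l : ℝ) (y : ℝ) =>
        y * (q.derivative.eval l + (α - 1/2 + 2 * α * j) * q.eval l)) ∈ LP := by
      have h := poly_mul_LP 1 (q.derivative + Polynomial.C (α - 1/2 + 2 * α * j) * q)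
      convert h using 1
      funext l y
      simp only [Polynomial.eval_add, Polynomial.eval_mul, Polynomial.eval_C, pow_one]
      ring
    have hqR : (fun (l : ℝ) (y : ℝ) => q.eval l * R y) ∈ LT :=
      poly_mul_LT (isT_of_isE hRP.R_E) q
    have hω : (fun (l : ℝ) (y : ℝ) => ω0 l y + q.eval l * R y) ∈ LT := add_mem hω0 hqR
    have hexp := hX α (kOne α) (wOne α R P) j F w δ _ _ _ hj hF hw pT hF1 hw1 hf1 hf2 hω hδ
    have hXq := XX_mem hM hM2 α (kOne α) pT j hf1 hf2 hω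
    refine ⟨e2 + XX α (kOne α) (wOne α R P) j (fun l _ => q.eval l)
      (fun l y => y * (q.derivative.eval l + (α - 1/2 + 2 * α * j) * q.eval l))
      (fun l y => ω0 l y + q.eval l * R y), add_mem he2 hXq, ?_, ?_⟩
    · intro l
      have hsplit := fun y => XX_split hQ hM α (kOne α) (α - 1/2 + 2 * α * j) hw1s hRs j hω0 q l y
      have hi1 := int_LT hQ hE (add_mem he2 hX0) l
      have hi2 := int_LT hQ hE (sub_mem hXq hX0) l
      have e1 : ∀ y, (e2 + XX α (kOne α) (wOne α R P) j (fun l _ => q.eval l)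
          (fun l y => y * (q.derivative.eval l + (α - 1/2 + 2 * α * j) * q.eval l))
          (fun l y => ω0 l y + q.eval l * R y)) l y * Q y =
          (e2 + XX α (kOne α) (wOne α R P) j (fun _ _ => 0) (fun _ _ => 0) ω0) l y * Q y +
          (XX α (kOne α) (wOne α R P) j (fun l _ => q.eval l)
          (fun l y => y * (q.derivative.eval l + (α - 1/2 + 2 * α * j) * q.eval l))
          (fun l y => ω0 l y + q.eval l * R y) -
          XX α (kOne α) (wOne α R P) j (fun _ _ => 0) (fun _ _ => 0) ω0) l y * Q y := by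
        intro y
        simp only [Pi.add_apply, Pi.sub_apply]
        ring
      rw [integral_congr_ae (Filter.Eventually.of_forall e1), integral_add hi1 hi2, hK l]
      have e2' := pc j (q.eval l) (q.derivative.eval l)
      have e3 : ∀ y, (XX α (kOne α) (wOne α R P) j (fun l _ => q.eval l)
          (fun l y => y * (q.derivative.eval l + (α - 1/2 + 2 * α * j) * q.eval l))
          (fun l y => ω0 l y + q.eval l * R y) -
          XX α (kOne α) (wOne α R P) j (fun _ _ => 0) (fun _ _ => 0) ω0) l y * Q y =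
          (2 * α * ((j : ℝ) + 1) * (q.eval l * R y) + q.derivative.eval l * R y
        + deriv (fun y' => 5 * Q y' ^ 4 *
              (y' * (q.derivative.eval l + (α - 1/2 + 2 * α * j) * q.eval l))
            + 20 * Q y' ^ 3 * (kOne α + wOne α R P y') * (q.eval l + q.eval l * R y')) y
        - (2 * α + 1) * (q.eval l * R y / 2 + y * (q.eval l * deriv R y))) * Q y := by
        intro y
        simp only [Pi.sub_apply]
        rw [hsplit y]
        ring
      rw [integral_congr_ae (Filter.Eventually.of_forall e3), e2']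
      have hql := congrArg (Polynomial.eval l) hq
      simp only [Polynomial.eval_add, Polynomial.eval_mul, Polynomial.eval_C] at hql
      rw [hql]
      field_simp
      ring
    · have hA : ∀ l y, deriv (fun y' => 5 * Q y' ^ 4 * q.eval l -
          Lop ((fun (l : ℝ) (y : ℝ) => ω0 l y + q.eval l * R y) l) y') y = - e l y := by
        intro l y
        have hωy := contDiff_y hM hω0 l
        have e1 : (fun y' => 5 * Q y' ^ 4 * q.eval l -
            Lop ((fun (l : ℝ) (y : ℝ) => ω0 l y + q.eval l * R y) l) y') =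
            fun y' => q.eval l * (5 * Q y' ^ 4 - Lop R y') - Lop (ω0 l) y' := by
          funext y'
          rw [Lop_add_smul hωy hRs]
          ring
        have d1 : DifferentiableAt ℝ (Lop R) y :=
          (contDiff_infty_iff_deriv.1 (Lop_contDiff hQ hRs)).1 y
        have d2 : DifferentiableAt ℝ (Lop (ω0 l)) y :=
          (contDiff_infty_iff_deriv.1 (Lop_contDiff hQ hωy)).1 y
        have dQ : DifferentiableAt ℝ Q y := (contDiff_infty_iff_deriv.1 hQ.1).1 y
        have d3 : DifferentiableAt ℝ (fun y' => 5 * Q y' ^ 4 - Lop R y') y := by fun_prop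
        rw [e1]
        have e2 := (d3.hasDerivAt.const_mul (q.eval l)).sub d2.hasDerivAt
        have e3 : deriv (fun y' => Lop (ω0 l) y') y = e l y := hLω l y
        rw [pd y, mul_zero, zero_sub] at e2
        have e4 := e2.deriv
        rw [← e3]
        exact e4
      have hsum := add_mem hexp hB2
      convert hsum using 1
      funext r l y
      simp only [Pi.add_apply, Pi.sub_apply, lif, XX, hA]
      ring
  · intro hj1 hFl hwl hωl
    obtain ⟨F0, rfl⟩ : ∃ F0 : ℝ → ℝ → ℝ, F = fun r _ y => F0 r y :=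
      ⟨fun r y => F r 0 y, by funext r l y; exact hFl r l y⟩
    obtain ⟨w0, rfl⟩ : ∃ w0 : ℝ → ℝ → ℝ, w = fun r _ y => w0 r y :=
      ⟨fun r y => w r 0 y, by funext r l y; exact hwl r l y⟩
    obtain ⟨o0, rfl⟩ : ∃ o0 : ℝ → ℝ, ω0 = fun _ y => o0 y :=
      ⟨fun y => ω0 0 y, by funext l y; exact hωl l y⟩
    have hel : ∀ l y, e l y = e 0 y := by
      intro l y
      rw [← hLω l y, ← hLω 0 y]
    have hBl : ∀ r l y, Bk α (fun r _ y => F0 r y) (fun r _ y => w0 r y) r l y =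
        Bk α (fun r _ y => F0 r y) (fun r _ y => w0 r y) r 0 y := by
      intro r l y
      simp only [Bk, Dop, dY, deriv_const]
    have he2l : ∀ l y, e2 l y = e2 0 y := by
      intro l y
      obtain ⟨B1, hB1⟩ := MT_bound hM2 hB2 l y
      obtain ⟨B2, hB2'⟩ := MT_bound hM2 hB2 0 y
      have h3 : e2 l y - e2 0 y = 0 := by
        refine lim_zero (m := j + 2) (B := B1 + B2) fun r hr hr1 => ?_
        have h4 := hB1 r hr hr1
        have h5 := hB2' r hr hr1
        have h6 : r ^ (j + 2) * (e2 l y - e2 0 y) =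
            (Bk α (fun r _ y => F0 r y) (fun r _ y => w0 r y) - lif (j + 1) e -
              lif (j + 2) e2) r 0 y -
            (Bk α (fun r _ y => F0 r y) (fun r _ y => w0 r y) - lif (j + 1) e -
              lif (j + 2) e2) r l y := by
          simp only [Pi.sub_apply, lif]
          rw [hBl r l y, hel l y]
          ring
        rw [h6]
        refine (abs_sub _ _).trans ?_
        rw [add_mul]
        linarith
      linarith
    have hXl : ∀ l y, XX α (kOne α) (wOne α R P) j (fun _ _ => 0) (fun _ _ => 0)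
        (fun _ y => o0 y) l y = XX α (kOne α) (wOne α R P) j (fun _ _ => 0) (fun _ _ => 0)
        (fun _ y => o0 y) 0 y := by
      intro l y
      simp only [XX, deriv_const]
    have hKl : ∀ l, K.eval l = K.eval 0 := by
      intro l
      rw [← hK l, ← hK 0]
      refine integral_congr_ae (Filter.Eventually.of_forall fun y => ?_)
      simp only [Pi.add_apply]
      rw [he2l l y, hXl l y]
    have hKc : K = Polynomial.C (K.eval 0) := by
      refine Polynomial.funext fun l => ?_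
      rw [Polynomial.eval_C, hKl l]
    rw [hKc, ← Polynomial.C_mul] at hq
    exact ⟨_, l4 _ q _ hj1 hq⟩

end Pool.Agent.Helper41.KV
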