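import Pool.Agent.Helper33.KV.GoalsF
import Pool.Agent.Helper61.KV.ECL1

/-! LAWQ: the law of the almost conserved quantity (packet KV-F-LAWQ). -/

set_option linter.unusedVariables false
set_option linter.unusedSectionVars false

namespace Pool.Agent.Helper33.KV.LawQ19

open Real MeasureTheory Pool.Agent.Helper41.KV Pool.Agent.Helper61.KV

/-! ### exponentials -/

theorem int_exp_half : Integrable (fun y : ℝ => exp (-|y| / 2)) := by
  have hint : Integrable (fun x : ℝ => 8 * (1 + x ^ 2)⁻¹) :=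
    integrable_inv_one_add_sq.const_mul _
  refine hint.mono' (by fun_prop) (Filter.Eventually.of_forall fun y => ?_)
  rw [Real.norm_eq_abs, abs_of_pos (exp_pos _)]
  have h0 : -|y| / 2 = -(1 / 2 * |y|) := by ring
  rw [h0, Real.exp_neg]
  have h3 : (1 + y ^ 2) / 8 ≤ exp (1 / 2 * |y|) := by
    have h4 := Real.quadratic_le_exp_of_nonneg (show 0 ≤ 1 / 2 * |y| by positivity)
    have h5 : y ^ 2 = |y| ^ 2 := (sq_abs y).symm
    have h6 := abs_nonneg y
    rw [h5]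
    nlinarith
  have h7 : (0 : ℝ) < (1 + y ^ 2) / 8 := by positivity
  calc (exp (1 / 2 * |y|))⁻¹ ≤ ((1 + y ^ 2) / 8)⁻¹ := inv_anti₀ h7 h3
    _ = 8 * (1 + y ^ 2)⁻¹ := by rw [inv_div, div_eq_mul_inv]

theorem exp34_le (y : ℝ) : exp (-(3 / 4) * |y|) ≤ exp (-|y| / 2) := by
  apply exp_le_exp.2
  have := abs_nonneg y
  linarith

theorem int_exp34 : Integrable (fun y : ℝ => exp (-(3 / 4) * |y|)) := by
  refine int_exp_half.mono' (by fun_prop) (Filter.Eventually.of_forall fun y => ?_)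
  rw [Real.norm_eq_abs, abs_of_pos (exp_pos _)]
  exact exp34_le y

theorem memLp_exp_half : MemLp (fun y : ℝ => exp (-|y| / 2)) 2 := by
  rw [memLp_two_iff_integrable_sq (by fun_prop)]
  refine int_exp_half.mono' (by fun_prop) (Filter.Eventually.of_forall fun y => ?_)
  rw [Real.norm_eq_abs, abs_of_nonneg (by positivity), ← Real.exp_nat_mul]
  apply exp_le_exp.2
  have := abs_nonneg y
  push_cast
  linarith

theorem absorb (N k : ℕ) (hk : k ≤ 8) : ∃ K : ℝ, 0 ≤ K ∧ ∀ y : ℝ,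
    (1 + |y|) ^ N * exp (k * |y| / 64) * exp (-(3 / 4) * |y|) ≤ K * exp (-|y| / 2) := by
  obtain ⟨K, hK0, hK⟩ := poly_exp N (1 / 8) (by norm_num)
  refine ⟨K, hK0, fun y => ?_⟩
  have h0 := abs_nonneg y
  have hk' : (k : ℝ) ≤ 8 := by exact_mod_cast hk
  have h1 := hK |y| h0
  have h2 : exp (1 / 8 * |y|) * exp (k * |y| / 64) * exp (-(3 / 4) * |y|) ≤ exp (-|y| / 2) := by
    rw [← Real.exp_add, ← Real.exp_add]
    apply exp_le_exp.2
    nlinarith
  calc (1 + |y|) ^ N * exp (k * |y| / 64) * exp (-(3 / 4) * |y|)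
      ≤ (K * exp (1 / 8 * |y|)) * exp (k * |y| / 64) * exp (-(3 / 4) * |y|) := by gcongr
    _ = K * (exp (1 / 8 * |y|) * exp (k * |y| / 64) * exp (-(3 / 4) * |y|)) := by ring
    _ ≤ K * exp (-|y| / 2) := mul_le_mul_of_nonneg_left h2 hK0

/-- pairing with a localised function -/
theorem int_abs_exp {e : ℝ → ℝ} (he : MemLp e 2) :
    Integrable (fun y => |e y| * exp (-|y| / 2)) := by
  have h1 : MemLp (fun y => |e y|) 2 := he.abs
  exact h1.integrable_mul memLp_exp_half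

theorem pair_int {e g : ℝ → ℝ} (he : MemLp e 2) (hg : AEStronglyMeasurable g) {C : ℝ}
    (hb : ∀ y, |g y| ≤ C * exp (-|y| / 2)) : Integrable (fun y => e y * g y) := by
  refine ((int_abs_exp he).const_mul C).mono' (he.1.mul hg)
    (Filter.Eventually.of_forall fun y => ?_)
  rw [Real.norm_eq_abs, abs_mul]
  have := mul_le_mul_of_nonneg_left (hb y) (abs_nonneg (e y))
  linarith

theorem pair_bd {e g : ℝ → ℝ} (he : MemLp e 2) (hg : AEStronglyMeasurable g) {C : ℝ}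
    (hb : ∀ y, |g y| ≤ C * exp (-|y| / 2)) :
    |∫ y, e y * g y| ≤ C * ∫ y, |e y| * exp (-|y| / 2) := by
  rw [← integral_const_mul]
  refine (abs_integral_le_integral_abs).trans ?_
  refine integral_mono (pair_int he hg hb).abs ((int_abs_exp he).const_mul C) fun y => ?_
  simp only [abs_mul]
  have := mul_le_mul_of_nonneg_left (hb y) (abs_nonneg (e y))
  linarith

theorem memLp_E {f : ℝ → ℝ} (hf : IsE f) : MemLp f 2 := by
  rw [memLp_two_iff_integrable_sq hf.1.continuous.aestronglyMeasurable]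
  have := intE (mulPE (E_P hf) hf)
  simpa [sq] using this

theorem bd_E {f : ℝ → ℝ} (hf : IsE f) : ∃ C : ℝ, 0 ≤ C ∧ ∀ y, |f y| ≤ C * exp (-(3 / 4) * |y|) := by
  obtain ⟨C, hC0, hC⟩ := unifE hf 0 (3 / 4) (by norm_num)
  refine ⟨C, hC0, fun y => ?_⟩
  have := hC 0 le_rfl y
  rw [iteratedDeriv_zero] at this
  have h : -(3 / 4 * |y|) = -(3 / 4) * |y| := by ring
  rwa [h] at this

/-! ### the inner variable -/

theorem memLp_affine {f : ℝ → ℝ} (hc : Continuous f) (hf : MemLp f 2) {s l : ℝ} (hl : l ≠ 0) :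
    MemLp (fun y => f (s + l * y)) 2 := by
  rw [memLp_two_iff_integrable_sq (by fun_prop)]
  have h1 := (memLp_two_iff_integrable_sq hc.aestronglyMeasurable).1 hf
  have h2 : Integrable (fun y => f (s + y) ^ 2) := h1.comp_add_left s
  exact h2.comp_mul_left' hl

variable {α t : ℝ} {g : ℝ → ℝ → ℝ}

theorem contDiff_inn (h : ContDiff ℝ (⊤ : ℕ∞) (g t)) : ContDiff ℝ (⊤ : ℕ∞) (inn α g t) := by
  have h1 : ContDiff ℝ (⊤ : ℕ∞) (fun y : ℝ => sig α t + lam α t * y) := by fun_prop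
  exact contDiff_const.mul (h.comp h1)

theorem deriv_inn (h : ContDiff ℝ (⊤ : ℕ∞) (g t)) (y : ℝ) :
    deriv (inn α g t) y = √(lam α t) * (deriv (g t) (sig α t + lam α t * y) * lam α t) := by
  have h0 := (contDiff_infty_iff_deriv.1 h).1 (sig α t + lam α t * y)
  have h1 : HasDerivAt (fun y : ℝ => sig α t + lam α t * y) (lam α t) y := by
    simpa using ((hasDerivAt_id y).const_mul (lam α t)).const_add (sig α t)
  have h2 := (h0.hasDerivAt.comp y h1).const_mul (√(lam α t))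
  exact h2.deriv

theorem memLp_inn (hl : lam α t ≠ 0) (h : ContDiff ℝ (⊤ : ℕ∞) (g t)) (h2 : MemLp (g t) 2) :
    MemLp (inn α g t) 2 :=
  (memLp_affine h.continuous h2 hl).const_mul _

theorem memLp_deriv_inn (hl : lam α t ≠ 0) (h : ContDiff ℝ (⊤ : ℕ∞) (g t))
    (h2 : MemLp (deriv (g t)) 2) : MemLp (deriv (inn α g t)) 2 := by
  have h3 : deriv (inn α g t) = fun y => (√(lam α t) * lam α t) *
      deriv (g t) (sig α t + lam α t * y) := by
    funext y; rw [deriv_inn h]; ring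
  rw [h3]
  have h4 : Continuous (deriv (g t)) := (contDiff_infty_iff_deriv.1 h).2.continuous
  exact (memLp_affine h4 h2 hl).const_mul _

/-! ### the residual -/

theorem iter2 (f : ℝ → ℝ) : iteratedDeriv 2 f = deriv (deriv f) := by
  rw [iteratedDeriv_succ, iteratedDeriv_one]

theorem resid_facts {W Wt : ℝ → ℝ → ℝ} (hl : lam α t ≠ 0) (hW : HInf W t t) (hWt : HInf Wt t t)
    (hs : ∀ x, x ∉ Set.Icc (-1 : ℝ) 1 → W t x = 0) :
    ContDiff ℝ (⊤ : ℕ∞) (resid α W Wt t) ∧ MemLp (resid α W Wt t) 2 ∧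
      MemLp (deriv (resid α W Wt t)) 2 := by
  have ht : t ∈ Set.Icc t t := ⟨le_rfl, le_rfl⟩
  have hf : ContDiff ℝ (⊤ : ℕ∞) (W t) := hW.smooth t ht
  have hft : ContDiff ℝ (⊤ : ℕ∞) (Wt t) := hWt.smooth t ht
  have hc : HasCompactSupport (W t) := HasCompactSupport.intro isCompact_Icc hs
  have hf1 : ContDiff ℝ (⊤ : ℕ∞) (deriv (W t)) := (contDiff_infty_iff_deriv.1 hf).2
  have hf2 : ContDiff ℝ (⊤ : ℕ∞) (deriv (deriv (W t))) := (contDiff_infty_iff_deriv.1 hf1).2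
  have hfl : flux (W t) = deriv (deriv (W t)) + fun x => W t x ^ 5 := by
    funext x
    simp only [flux, iter2, Pi.add_apply]
  have hF : ContDiff ℝ (⊤ : ℕ∞) (flux (W t)) := by
    rw [hfl]; exact hf2.add (hf.pow 5)
  have hcF : HasCompactSupport (flux (W t)) := by
    rw [hfl]
    exact hc.deriv.deriv.add (hc.comp_left (g := fun z : ℝ => z ^ 5) (by norm_num))
  have hF1 : ContDiff ℝ (⊤ : ℕ∞) (deriv (flux (W t))) := (contDiff_infty_iff_deriv.1 hF).2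
  have hF2 : ContDiff ℝ (⊤ : ℕ∞) (deriv (deriv (flux (W t)))) :=
    (contDiff_infty_iff_deriv.1 hF1).2
  have m0 : MemLp (Wt t) 2 := by
    have := hWt.memLp 0 t ht
    rwa [iteratedDeriv_zero] at this
  have m1 : MemLp (deriv (Wt t)) 2 := by
    have := hWt.memLp 1 t ht
    rwa [iteratedDeriv_one] at this
  have n1 : MemLp (deriv (flux (W t))) 2 := hF1.continuous.memLp_of_hasCompactSupport hcF.deriv
  have n2 : MemLp (deriv (deriv (flux (W t)))) 2 :=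
    hF2.continuous.memLp_of_hasCompactSupport hcF.deriv.deriv
  set G : ℝ → ℝ → ℝ := fun t x => Wt t x + deriv (flux (W t)) x with hG
  have hGs : ContDiff ℝ (⊤ : ℕ∞) (G t) := hft.add hF1
  have hG0 : MemLp (G t) 2 := m0.add n1
  have hG1 : MemLp (deriv (G t)) 2 := by
    have : deriv (G t) = deriv (Wt t) + deriv (deriv (flux (W t))) := by
      funext x
      exact deriv_add ((contDiff_infty_iff_deriv.1 hft).1 x) ((contDiff_infty_iff_deriv.1 hF1).1 x)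
    rw [this]
    exact m1.add n2
  have hr : resid α W Wt t = fun y => lam α t ^ 3 * inn α G t y := rfl
  have hi := contDiff_inn (α := α) hGs
  rw [hr]
  refine ⟨contDiff_const.mul hi, (memLp_inn hl hGs hG0).const_mul _, ?_⟩
  have : deriv (fun y => lam α t ^ 3 * inn α G t y) = fun y => lam α t ^ 3 *
      deriv (inn α G t) y := by
    funext y
    exact (((contDiff_infty_iff_deriv.1 hi).1 y).hasDerivAt.const_mul _).deriv
  rw [this]
  exact (memLp_deriv_inn hl hGs hG1).const_mul _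

/-! ### uniform classes -/

/-- uniformly bounded families with the weight `(1+|y|)^N exp (k |y|/64)` -/
def UP {ι : Type} (k : ℕ) (f : ι → ℝ → ℝ) : Prop :=
  ∃ (C : ℝ) (N : ℕ), 0 ≤ C ∧ ∀ i y, |f i y| ≤ C * ((1 + |y|) ^ N * exp (k * |y| / 64))

/-- uniformly localised families -/
def UE {ι : Type} (k : ℕ) (f : ι → ℝ → ℝ) : Prop :=
  ∃ (C : ℝ) (N : ℕ), 0 ≤ C ∧ ∀ i y, |f i y| ≤
    C * ((1 + |y|) ^ N * exp (k * |y| / 64)) * exp (-(3 / 4) * |y|)

section uni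
variable {ι : Type} {f g : ι → ℝ → ℝ} {k l : ℕ}

theorem one_le (y : ℝ) : 1 ≤ 1 + |y| := by linarith [abs_nonneg y]

theorem wmul (N M k l : ℕ) (y : ℝ) : ((1 + |y|) ^ N * exp (k * |y| / 64)) *
    ((1 + |y|) ^ M * exp (l * |y| / 64)) = (1 + |y|) ^ (N + M) * exp ((k + l : ℕ) * |y| / 64) := by
  have h1 : exp ((k + l : ℕ) * |y| / 64) = exp (k * |y| / 64) * exp (l * |y| / 64) := by
    rw [← Real.exp_add]; congr 1; push_cast; ring
  rw [h1, pow_add]; ring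

theorem wmono {N M k l : ℕ} (h : N ≤ M) (h' : k ≤ l) (y : ℝ) :
    (1 + |y|) ^ N * exp (k * |y| / 64) ≤ (1 + |y|) ^ M * exp (l * |y| / 64) := by
  have h1 : exp (k * |y| / 64) ≤ exp (l * |y| / 64) := by
    apply exp_le_exp.2
    have : (k : ℝ) ≤ l := by exact_mod_cast h'
    have := abs_nonneg y
    gcongr
  exact mul_le_mul (pow_le_pow_right₀ (one_le y) h) h1 (exp_pos _).le (by positivity)

theorem UP.mul (hf : UP k f) (hg : UP l g) : UP (k + l) (fun i y => f i y * g i y) := by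
  obtain ⟨C, N, hC, h1⟩ := hf
  obtain ⟨D, M, hD, h2⟩ := hg
  refine ⟨C * D, N + M, by positivity, fun i y => ?_⟩
  rw [abs_mul]
  refine (mul_le_mul (h1 i y) (h2 i y) (abs_nonneg _) (by positivity)).trans (le_of_eq ?_)
  rw [← wmul]; ring

theorem UP.mono (hf : UP k f) (h : k ≤ l) : UP l f := by
  obtain ⟨C, N, hC, h1⟩ := hf
  exact ⟨C, N, hC, fun i y => (h1 i y).trans
    (mul_le_mul_of_nonneg_left (wmono le_rfl h y) hC)⟩

theorem UP.add (hf : UP k f) (hg : UP k g) : UP k (fun i y => f i y + g i y) := by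
  obtain ⟨C, N, hC, h1⟩ := hf
  obtain ⟨D, M, hD, h2⟩ := hg
  refine ⟨C + D, max N M, by positivity, fun i y => ?_⟩
  have e1 := mul_le_mul_of_nonneg_left (wmono (k := k) (le_max_left N M) le_rfl y) hC
  have e2 := mul_le_mul_of_nonneg_left (wmono (k := k) (le_max_right N M) le_rfl y) hD
  refine (abs_add_le _ _).trans ?_
  rw [add_mul]
  linarith [h1 i y, h2 i y]

theorem UP.mulE (hf : UP k f) (hg : UE l g) : UE (k + l) (fun i y => f i y * g i y) := by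
  obtain ⟨C, N, hC, h1⟩ := hf
  obtain ⟨D, M, hD, h2⟩ := hg
  refine ⟨C * D, N + M, by positivity, fun i y => ?_⟩
  rw [abs_mul]
  refine (mul_le_mul (h1 i y) (h2 i y) (abs_nonneg _) (by positivity)).trans (le_of_eq ?_)
  rw [← wmul]; ring

theorem UE.mono (hf : UE k f) (h : k ≤ l) : UE l f := by
  obtain ⟨C, N, hC, h1⟩ := hf
  exact ⟨C, N, hC, fun i y => (h1 i y).trans
    (mul_le_mul_of_nonneg_right (mul_le_mul_of_nonneg_left (wmono le_rfl h y) hC)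
      (exp_pos _).le)⟩

theorem UE.add (hf : UE k f) (hg : UE k g) : UE k (fun i y => f i y + g i y) := by
  obtain ⟨C, N, hC, h1⟩ := hf
  obtain ⟨D, M, hD, h2⟩ := hg
  refine ⟨C + D, max N M, by positivity, fun i y => ?_⟩
  have e1 := mul_le_mul_of_nonneg_left (wmono (k := k) (le_max_left N M) le_rfl y) hC
  have e2 := mul_le_mul_of_nonneg_left (wmono (k := k) (le_max_right N M) le_rfl y) hD
  have e3 := mul_le_mul_of_nonneg_right e1 (exp_pos (-(3 / 4) * |y|)).le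
  have e4 := mul_le_mul_of_nonneg_right e2 (exp_pos (-(3 / 4) * |y|)).le
  refine (abs_add_le _ _).trans ?_
  rw [add_mul, add_mul]
  linarith [h1 i y, h2 i y]

theorem UP.const (c : ι → ℝ) (M : ℝ) (h : ∀ i, |c i| ≤ M) : UP 0 (fun i (_ : ℝ) => c i) := by
  refine ⟨|M|, 0, abs_nonneg _, fun i y => ?_⟩
  have : (1 + |y|) ^ 0 * exp ((0 : ℕ) * |y| / 64) = 1 := by simp
  rw [this, mul_one]
  exact (h i).trans (le_abs_self M)

theorem UP.ofP {h : ℝ → ℝ} (hh : IsP h) : UP 0 (fun (_ : ι) y => h y) := by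
  obtain ⟨n, C, hC0, hC⟩ := unifP hh 0
  refine ⟨C, n, hC0, fun i y => ?_⟩
  have h1 := hC 0 le_rfl y
  rw [iteratedDeriv_zero] at h1
  have : (1 + |y|) ^ n * exp ((0 : ℕ) * |y| / 64) = (1 + |y|) ^ n := by simp
  rwa [this]

theorem UE.ofE {h : ℝ → ℝ} (hh : IsE h) : UE 0 (fun (_ : ι) y => h y) := by
  obtain ⟨C, hC0, hC⟩ := bd_E hh
  refine ⟨C, 0, hC0, fun i y => ?_⟩
  have : (1 + |y|) ^ 0 * exp ((0 : ℕ) * |y| / 64) = 1 := by simp
  rw [this, mul_one]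
  exact hC y

theorem UE.bd (hf : UE k f) (hk : k ≤ 8) :
    ∃ C : ℝ, 0 ≤ C ∧ ∀ i y, |f i y| ≤ C * exp (-|y| / 2) := by
  obtain ⟨C, N, hC, h1⟩ := hf
  obtain ⟨K, hK0, hK⟩ := absorb N k hk
  refine ⟨C * K, by positivity, fun i y => ?_⟩
  have h2 := mul_le_mul_of_nonneg_left (hK y) hC
  have h3 := h1 i y
  linarith

end uni

/-! ### the linear term -/

theorem isE_Q (hQ : S_QF) : IsE Q := by
  refine ⟨hQ.1, fun k μ hμ => ?_⟩
  obtain ⟨C, hC⟩ := hQ.2.2.2.2.2.2.1 k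
  refine ⟨|C|, fun y => (hC y).trans ?_⟩
  have h1 : Real.exp (-|y|) ≤ Real.exp (-(μ * |y|)) := by
    apply Real.exp_le_exp.2
    have := abs_nonneg y
    nlinarith
  exact mul_le_mul (le_abs_self C) h1 (Real.exp_pos _).le (abs_nonneg _)

theorem constP (c : ℝ) : IsP (fun _ : ℝ => c) := by
  have := polyP (Polynomial.C c)
  simpa using this

theorem idP : IsP (fun y : ℝ => y) := by
  have := polyP (Polynomial.X)
  simpa using this

theorem isP_Z {Z : ℝ → ℝ} (h : IsZ1 Z) : IsP Z := by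
  have h1 := addP (E_P h.tail) thP
  have h2 : (fun y => Z y - tanh (2 * y) + tanh (2 * y)) = Z := by
    funext y; ring
  rwa [h2] at h1

theorem isP_V2 {α : ℝ} {Z V2 : ℝ → ℝ} (h : IsV2 α Z V2) : IsP V2 := by
  obtain ⟨p, q, h0⟩ := h.tail
  have h1 := addP (E_P h0) (addP (addP (constP p) (mulPP (constP q) thP))
    (mulPP (mulPP (constP (cc α)) idP) thP))
  have h2 : (fun y => V2 y - (p + q * tanh (2 * y)) - cc α * y * tanh (2 * y) +
      (p + q * tanh (2 * y) + cc α * y * tanh (2 * y))) = V2 := by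
    funext y; ring
  rwa [h2] at h1

theorem deriv_add_smul {f g : ℝ → ℝ} (hf : ContDiff ℝ (⊤ : ℕ∞) f) (hg : ContDiff ℝ (⊤ : ℕ∞) g)
    (c : ℝ) : deriv (fun y => f y + c * g y) = fun y => deriv f y + c * deriv g y := by
  funext z
  exact (((contDiff_infty_iff_deriv.1 hf).1 z).hasDerivAt.add
    (((contDiff_infty_iff_deriv.1 hg).1 z).hasDerivAt.const_mul c)).deriv

theorem lin_bound (hQ : S_QF) (hI : S_IDL) {α : ℝ} {Z Y V2 : ℝ → ℝ} (h1 : IsZ1 Z)
    (h2 : IsY1 Z Y) (h3 : IsV2 α Z V2) (C : ℝ) :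
    ∃ CR : ℝ, 0 ≤ CR ∧ ∀ (ρ : ℝ) (r v : ℝ → ℝ), 0 < ρ → ρ ≤ 1 → Continuous r →
      (∀ y, |r y| ≤ C * exp (|y| / 64)) →
      (∀ y, v y = Q y + ρ * kap α * Z y + ρ ^ 2 * V2 y + ρ ^ 3 * r y) →
      ∃ R : ℝ → ℝ, Continuous R ∧ (∀ y, |R y| ≤ CR * exp (-|y| / 2)) ∧
      ∀ y, deriv (deriv (deriv (Th α Y ρ))) y - deriv (Th α Y ρ) y
        + 5 * v y ^ 4 * deriv (Th α Y ρ) y
        - (2 * α + 1) * ρ * Lam (Th α Y ρ) y =
        ρ ^ 2 * R y + 2 * (2 * α + 1) * ρ * Th α Y ρ y := by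
  obtain ⟨-, ib, -, -, -, iz⟩ := hI α Z Y V2 h1 h2 h3
  have EQ := isE_Q hQ
  have EQ' := derE EQ
  have EY := h2.isE
  have EY' := derE EY
  have PZ := isP_Z h1
  have PV := isP_V2 h3
  have ELY : IsE (Lam Y) := by
    have := addE (mulPE (constP (1 / 2)) EY) (mulPE idP EY')
    have e : (fun y => 1 / 2 * Y y + y * deriv Y y) = Lam Y := by
      funext y; unfold Lam; ring
    rwa [e] at this
  let ι : Type := {p : ℝ × (ℝ → ℝ) // |p.1| ≤ 1 ∧ ∀ y, |p.2 y| ≤ C * exp (|y| / 64)}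
  let ρ : ι → ℝ := fun i => i.1.1
  have hρ1 : ∀ i : ι, |ρ i| ≤ 1 := fun i => i.2.1
  let s : ι → ℝ → ℝ := fun i y => V2 y + ρ i * i.1.2 y
  let g : ι → ℝ → ℝ := fun i y => kap α * Z y + ρ i * s i y
  have Ur : UP 1 (fun (i : ι) y => i.1.2 y) := by
    refine ⟨|C|, 0, abs_nonneg _, fun i y => ?_⟩
    have := i.2.2 y
    have e : (1 + |y|) ^ 0 * exp ((1 : ℕ) * |y| / 64) = exp (|y| / 64) := by simp
    rw [e]
    exact this.trans (mul_le_mul_of_nonneg_right (le_abs_self C) (by positivity))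
  have Uρ : UP 0 (fun (i : ι) (_ : ℝ) => ρ i) := UP.const ρ 1 hρ1
  have Us : UP 1 s := ((UP.ofP PV).mono (by norm_num)).add ((Uρ.mul Ur).mono (by norm_num))
  have cst : ∀ c : ℝ, UP 0 (fun (_ : ι) (_ : ℝ) => c) :=
    fun c => UP.const _ |c| (fun _ => le_rfl)
  have Ug : UP 1 g := (((cst (kap α)).mul (UP.ofP PZ)).mono (by norm_num)).add
    ((Uρ.mul Us).mono (by norm_num))
  have UQ : UP 0 (fun (_ : ι) y => Q y) := UP.ofP (E_P EQ)
  have Q2 := UQ.mul UQ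
  have Q3 := Q2.mul UQ
  have g2 := Ug.mul Ug
  have g3 := g2.mul Ug
  have g4 := g3.mul Ug
  let R : ι → ℝ → ℝ := fun i y =>
    20 * (Q y * Q y * Q y * s i y) * deriv Q y
    + 5 * (6 * (Q y * Q y * (g i y * g i y)) + 4 * (ρ i * (Q y * (g i y * g i y * g i y)))
        + ρ i * (ρ i * (g i y * g i y * g i y * g i y))) * deriv Q y
    + 5 * kap α * (4 * (Q y * Q y * Q y * g i y) + 6 * (ρ i * (Q y * Q y * (g i y * g i y)))
        + 4 * (ρ i * (ρ i * (Q y * (g i y * g i y * g i y))))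
        + ρ i * (ρ i * (ρ i * (g i y * g i y * g i y * g i y)))) * deriv Y y
    + (-(2 * α + 1) * kap α) * Lam Y y + (-(2 * (2 * α + 1) * kap α)) * Y y
  have t1 := (((cst 20).mul (Q3.mul Us)).mulE (UE.ofE (ι := ι) EQ')).mono
    (show _ ≤ 4 by norm_num)
  have u1 := ((cst 6).mul (Q2.mul g2)).mono (show _ ≤ 4 by norm_num)
  have u2 := ((cst 4).mul (Uρ.mul (UQ.mul g3))).mono (show _ ≤ 4 by norm_num)
  have u3 := (Uρ.mul (Uρ.mul g4)).mono (show _ ≤ 4 by norm_num)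
  have t2 := (((cst 5).mul ((u1.add u2).add u3)).mulE (UE.ofE (ι := ι) EQ')).mono
    (show _ ≤ 4 by norm_num)
  have u4 := ((cst 4).mul (Q3.mul Ug)).mono (show _ ≤ 4 by norm_num)
  have u5 := ((cst 6).mul (Uρ.mul (Q2.mul g2))).mono (show _ ≤ 4 by norm_num)
  have u6 := ((cst 4).mul (Uρ.mul (Uρ.mul (UQ.mul g3)))).mono (show _ ≤ 4 by norm_num)
  have u7 := (Uρ.mul (Uρ.mul (Uρ.mul g4))).mono (show _ ≤ 4 by norm_num)
  have t3 := (((cst (5 * kap α)).mul (((u4.add u5).add u6).add u7)).mulE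
    (UE.ofE (ι := ι) EY')).mono (show _ ≤ 4 by norm_num)
  have t4 := ((cst (-(2 * α + 1) * kap α)).mulE (UE.ofE (ι := ι) ELY)).mono
    (show _ ≤ 4 by norm_num)
  have t5 := ((cst (-(2 * (2 * α + 1) * kap α))).mulE (UE.ofE (ι := ι) EY)).mono
    (show _ ≤ 4 by norm_num)
  have UR : UE 4 R := (((t1.add t2).add t3).add t4).add t5
  obtain ⟨CR, hCR0, hCR⟩ := UR.bd (by norm_num)
  refine ⟨CR, hCR0, fun ρ0 r v hρ0 hρ0' hrc hr hv => ?_⟩
  let i0 : ι := ⟨(ρ0, r), ⟨by rw [abs_of_pos hρ0]; exact hρ0', hr⟩⟩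
  refine ⟨R i0, ?_, fun y => hCR i0 y, fun y => ?_⟩
  · have c1 : Continuous Q := EQ.1.continuous
    have c2 : Continuous (deriv Q) := EQ'.1.continuous
    have c3 : Continuous Y := EY.1.continuous
    have c4 : Continuous (deriv Y) := EY'.1.continuous
    have c5 : Continuous (Lam Y) := ELY.1.continuous
    have c6 : Continuous Z := PZ.1.continuous
    have c7 : Continuous V2 := PV.1.continuous
    have c9 : Continuous (s i0) := by
      change Continuous (fun y => V2 y + ρ0 * r y)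
      fun_prop
    have c10 : Continuous (g i0) := by
      change Continuous (fun y => kap α * Z y + ρ0 * s i0 y)
      fun_prop
    change Continuous (fun y =>
      20 * (Q y * Q y * Q y * s i0 y) * deriv Q y
    + 5 * (6 * (Q y * Q y * (g i0 y * g i0 y))
        + 4 * (ρ0 * (Q y * (g i0 y * g i0 y * g i0 y)))
        + ρ0 * (ρ0 * (g i0 y * g i0 y * g i0 y * g i0 y))) * deriv Q y
    + 5 * kap α * (4 * (Q y * Q y * Q y * g i0 y)
        + 6 * (ρ0 * (Q y * Q y * (g i0 y * g i0 y)))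
        + 4 * (ρ0 * (ρ0 * (Q y * (g i0 y * g i0 y * g i0 y))))
        + ρ0 * (ρ0 * (ρ0 *
          (g i0 y * g i0 y * g i0 y * g i0 y)))) * deriv Y y
    + (-(2 * α + 1) * kap α) * Lam Y y + (-(2 * (2 * α + 1) * kap α)) * Y y)
    fun_prop
  · have eT : Th α Y ρ0 = fun y => Q y + (ρ0 * kap α) * Y y := rfl
    have d1 := deriv_add_smul EQ.1 EY.1 (ρ0 * kap α)
    have d2 := deriv_add_smul EQ'.1 EY'.1 (ρ0 * kap α)
    have d3 := deriv_add_smul (derE EQ').1 (derE EY').1 (ρ0 * kap α)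
    have e1 := iz y
    have e2 := ib y
    have eL : Lam (Th α Y ρ0) y = Lam Q y + (ρ0 * kap α) * Lam Y y := by
      unfold Lam
      rw [eT, d1]
      ring
    rw [eL, eT, d1, d2, d3, hv y]
    simp only [Lop] at e1 e2
    change _ = ρ0 ^ 2 * (20 * (Q y * Q y * Q y * (V2 y + ρ0 * r y)) * deriv Q y
    + 5 * (6 * (Q y * Q y * ((kap α * Z y + ρ0 * (V2 y + ρ0 * r y)) *
        (kap α * Z y + ρ0 * (V2 y + ρ0 * r y))))
        + 4 * (ρ0 * (Q y * ((kap α * Z y + ρ0 * (V2 y + ρ0 * r y)) *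
        (kap α * Z y + ρ0 * (V2 y + ρ0 * r y)) *
        (kap α * Z y + ρ0 * (V2 y + ρ0 * r y)))))
        + ρ0 * (ρ0 * ((kap α * Z y + ρ0 * (V2 y + ρ0 * r y)) *
        (kap α * Z y + ρ0 * (V2 y + ρ0 * r y)) *
        (kap α * Z y + ρ0 * (V2 y + ρ0 * r y)) *
        (kap α * Z y + ρ0 * (V2 y + ρ0 * r y))))) * deriv Q y
    + 5 * kap α * (4 * (Q y * Q y * Q y * (kap α * Z y + ρ0 * (V2 y + ρ0 * r y)))
        + 6 * (ρ0 * (Q y * Q y * ((kap α * Z y + ρ0 * (V2 y + ρ0 * r y)) *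
        (kap α * Z y + ρ0 * (V2 y + ρ0 * r y)))))
        + 4 * (ρ0 * (ρ0 * (Q y * ((kap α * Z y + ρ0 * (V2 y + ρ0 * r y)) *
        (kap α * Z y + ρ0 * (V2 y + ρ0 * r y)) *
        (kap α * Z y + ρ0 * (V2 y + ρ0 * r y))))))
        + ρ0 * (ρ0 * (ρ0 *
          ((kap α * Z y + ρ0 * (V2 y + ρ0 * r y)) *
        (kap α * Z y + ρ0 * (V2 y + ρ0 * r y)) *
        (kap α * Z y + ρ0 * (V2 y + ρ0 * r y)) *
        (kap α * Z y + ρ0 * (V2 y + ρ0 * r y)))))) * deriv Y y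
    + (-(2 * α + 1) * kap α) * Lam Y y + (-(2 * (2 * α + 1) * kap α)) * Y y) +
      2 * (2 * α + 1) * ρ0 * (Q y + (ρ0 * kap α) * Y y)
    linear_combination (-1 : ℝ) * e1 - ρ0 * e2

/-! ### the quadratic term -/

theorem cube_le {x : ℝ} (hx : 0 ≤ x) : x ^ 3 ≤ x ^ 2 + x ^ 5 ∧ x ^ 4 ≤ x ^ 2 + x ^ 5 := by
  rcases le_total x 1 with h | h
  · have h2 : 0 ≤ x ^ 5 := by positivity
    constructor
    · have : x ^ 3 ≤ x ^ 2 := pow_le_pow_of_le_one hx h (by norm_num)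
      linarith
    · have : x ^ 4 ≤ x ^ 2 := pow_le_pow_of_le_one hx h (by norm_num)
      linarith
  · have h2 : 0 ≤ x ^ 2 := by positivity
    constructor
    · have : x ^ 3 ≤ x ^ 5 := pow_le_pow_right₀ h (by norm_num)
      linarith
    · have : x ^ 4 ≤ x ^ 5 := pow_le_pow_right₀ h (by norm_num)
      linarith

theorem quad_pt {V x v : ℝ} (hV : 1 ≤ V) (hv : |v| ≤ V) :
    |(v + x) ^ 5 - v ^ 5 - 5 * v ^ 4 * x| ≤ 26 * V ^ 3 * (x ^ 2 + |x| ^ 5) := by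
  have hx := abs_nonneg x
  obtain ⟨c3, c4⟩ := cube_le hx
  have e1 : (v + x) ^ 5 - v ^ 5 - 5 * v ^ 4 * x =
      10 * v ^ 3 * x ^ 2 + 10 * v ^ 2 * x ^ 3 + 5 * v * x ^ 4 + x ^ 5 := by ring
  have hv0 := abs_nonneg v
  have v3 : |v| ^ 3 ≤ V ^ 3 := pow_le_pow_left₀ hv0 hv 3
  have v2 : |v| ^ 2 ≤ V ^ 3 := (pow_le_pow_left₀ hv0 hv 2).trans (pow_le_pow_right₀ hV (by norm_num))
  have v1 : |v| ≤ V ^ 3 := hv.trans (by
    calc V = V ^ 1 := (pow_one V).symm
      _ ≤ V ^ 3 := pow_le_pow_right₀ hV (by norm_num))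
  have v0 : 1 ≤ V ^ 3 := one_le_pow₀ hV
  have x2 : |x| ^ 2 = x ^ 2 := sq_abs x
  rw [e1]
  have a1 : |10 * v ^ 3 * x ^ 2| ≤ 10 * V ^ 3 * (x ^ 2 + |x| ^ 5) := by
    rw [abs_mul, abs_mul, abs_pow, abs_pow, abs_of_pos (by norm_num : (0 : ℝ) < 10), x2]
    have h5 : 0 ≤ |x| ^ 5 := by positivity
    exact mul_le_mul (mul_le_mul_of_nonneg_left v3 (by norm_num)) (by linarith) (by positivity)
      (by positivity)
  have a2 : |10 * v ^ 2 * x ^ 3| ≤ 10 * V ^ 3 * (x ^ 2 + |x| ^ 5) := by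
    rw [abs_mul, abs_mul, abs_pow, abs_pow, abs_of_pos (by norm_num : (0 : ℝ) < 10)]
    rw [x2] at c3
    exact mul_le_mul (mul_le_mul_of_nonneg_left v2 (by norm_num)) c3 (by positivity)
      (by positivity)
  have a3 : |5 * v * x ^ 4| ≤ 5 * V ^ 3 * (x ^ 2 + |x| ^ 5) := by
    rw [abs_mul, abs_mul, abs_pow, abs_of_pos (by norm_num : (0 : ℝ) < 5)]
    rw [x2] at c4
    exact mul_le_mul (mul_le_mul_of_nonneg_left v1 (by norm_num)) c4 (by positivity)
      (by positivity)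
  have a4 : |x ^ 5| ≤ V ^ 3 * (x ^ 2 + |x| ^ 5) := by
    rw [abs_pow]
    have h5 : 0 ≤ |x| ^ 5 := by positivity
    have h2 : 0 ≤ x ^ 2 := by positivity
    nlinarith
  have b1 := abs_add_le (10 * v ^ 3 * x ^ 2 + 10 * v ^ 2 * x ^ 3 + 5 * v * x ^ 4) (x ^ 5)
  have b2 := abs_add_le (10 * v ^ 3 * x ^ 2 + 10 * v ^ 2 * x ^ 3) (5 * v * x ^ 4)
  have b3 := abs_add_le (10 * v ^ 3 * x ^ 2) (10 * v ^ 2 * x ^ 3)
  linarith

theorem quad_bound {v z e F1 : ℝ → ℝ} {V D m H : ℝ} (hV : 1 ≤ V) (hv : ∀ y, |v y| ≤ V)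
    (hD : 0 ≤ D) (hm : 0 ≤ m) (hm2 : m ≤ 2)
    (hz : ∀ y, |z y| ≤ m * D * exp (-(3 / 4) * |y|))
    (hF : ∀ y, |F1 y| ≤ D * exp (-(3 / 4) * |y|)) (hec : Continuous e) (he : MemLp e 2)
    (hH : 0 ≤ H) (hH1 : H ≤ 1) (hpt : ∀ y, exp (-|y| / 4) * e y ^ 2 ≤ 4 * H)
    (h4 : ∫ y, e y ^ 2 * exp (-|y| / 2) ≤ 2 * H)
    (h5 : ∫ y, |e y| ^ 5 * exp (-(3 / 4) * |y|) ≤ 16 * H ^ ((5 : ℝ) / 2)) :
    |∫ y, ((v y + (z y + e y)) ^ 5 - v y ^ 5 - 5 * v y ^ 4 * (z y + e y)) * F1 y| ≤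
      26 * V ^ 3 * D * ((2 * D ^ 2 + 128 * D ^ 5) * m ^ 2 * (∫ y, exp (-(3 / 4) * |y|)) +
        260 * H) := by
  have hsq := (memLp_two_iff_integrable_sq hec.aestronglyMeasurable).1 he
  have i2 : Integrable (fun y => e y ^ 2 * exp (-|y| / 2)) := by
    refine hsq.mono' (by fun_prop) (Filter.Eventually.of_forall fun y => ?_)
    rw [Real.norm_eq_abs, abs_of_nonneg (by positivity)]
    have h1 : exp (-|y| / 2) ≤ 1 := by
      apply exp_le_one_iff.2
      have := abs_nonneg y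
      linarith
    have := mul_le_mul_of_nonneg_left h1 (sq_nonneg (e y))
    linarith
  have p8 : ∀ y, |e y| * exp (-|y| / 8) ≤ 2 := by
    intro y
    have h1 : (|e y| * exp (-|y| / 8)) ^ 2 ≤ 2 ^ 2 := by
      rw [mul_pow, sq_abs, ← Real.exp_nat_mul]
      have h2 : ((2 : ℕ) : ℝ) * (-|y| / 8) = -|y| / 4 := by push_cast; ring
      rw [h2]
      have := hpt y
      linarith
    exact le_of_sq_le_sq h1 (by norm_num)
  have i5 : Integrable (fun y => |e y| ^ 5 * exp (-(3 / 4) * |y|)) := by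
    refine (hsq.const_mul 8).mono' (by fun_prop) (Filter.Eventually.of_forall fun y => ?_)
    rw [Real.norm_eq_abs, abs_of_nonneg (by positivity)]
    have h1 : |e y| ^ 5 * exp (-(3 / 4) * |y|) =
        (|e y| * exp (-|y| / 8)) ^ 3 * (e y ^ 2 * exp (-(3 / 8) * |y|)) := by
      rw [mul_pow, ← Real.exp_nat_mul, ← sq_abs (e y)]
      have h2 : exp (-(3 / 4) * |y|) = exp (((3 : ℕ) : ℝ) * (-|y| / 8)) *
          exp (-(3 / 8) * |y|) := by
        rw [← Real.exp_add]; congr 1; push_cast; ring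
      rw [h2]; ring
    have h3 : (|e y| * exp (-|y| / 8)) ^ 3 ≤ 2 ^ 3 :=
      pow_le_pow_left₀ (by positivity) (p8 y) 3
    have h4 : exp (-(3 / 8) * |y|) ≤ 1 := by
      apply exp_le_one_iff.2
      have := abs_nonneg y
      linarith
    have h5 : e y ^ 2 * exp (-(3 / 8) * |y|) ≤ e y ^ 2 := by
      have := mul_le_mul_of_nonneg_left h4 (sq_nonneg (e y))
      linarith
    rw [h1]
    have := mul_le_mul h3 h5 (by positivity) (by norm_num)
    linarith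
  have iE := int_exp34
  set G : ℝ → ℝ := fun y => 26 * V ^ 3 * D * ((2 * D ^ 2 + 128 * D ^ 5) * m ^ 2 *
    exp (-(3 / 4) * |y|) + (2 * (e y ^ 2 * exp (-|y| / 2)) +
      16 * (|e y| ^ 5 * exp (-(3 / 4) * |y|)))) with hG
  have iA := iE.const_mul ((2 * D ^ 2 + 128 * D ^ 5) * m ^ 2)
  have iB := i2.const_mul 2
  have iC := i5.const_mul 16
  have iG : Integrable G := (iA.add (iB.add iC)).const_mul _
  have hpw : ∀ y, ‖((v y + (z y + e y)) ^ 5 - v y ^ 5 - 5 * v y ^ 4 * (z y + e y)) * F1 y‖ ≤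
      G y := by
    intro y
    rw [Real.norm_eq_abs, abs_mul]
    have q1 := quad_pt (x := z y + e y) hV (hv y)
    have q2 : |z y + e y| ^ 5 ≤ 16 * (|z y| ^ 5 + |e y| ^ 5) := by
      have h1 : |z y + e y| ^ 5 ≤ (|z y| + |e y|) ^ 5 :=
        pow_le_pow_left₀ (abs_nonneg _) (abs_add_le _ _) 5
      have h2 := add_pow_le (abs_nonneg (z y)) (abs_nonneg (e y)) 5
      norm_num at h2
      exact h1.trans h2
    have q3 : (z y + e y) ^ 2 ≤ 2 * (z y ^ 2 + e y ^ 2) := by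
      nlinarith [sq_nonneg (z y - e y)]
    have E0 := exp_pos (-(3 / 4) * |y|)
    have E1 : exp (-(3 / 4) * |y|) ≤ 1 := by
      apply exp_le_one_iff.2
      have := abs_nonneg y
      linarith
    have zb : |z y| ≤ m * D := by
      refine (hz y).trans ?_
      have := mul_le_mul_of_nonneg_left E1 (by positivity : 0 ≤ m * D)
      linarith
    have q4 : z y ^ 2 ≤ m ^ 2 * D ^ 2 := by
      rw [← sq_abs, ← mul_pow]
      exact pow_le_pow_left₀ (abs_nonneg _) zb 2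
    have q5 : |z y| ^ 5 ≤ 8 * (m ^ 2 * D ^ 5) := by
      have h1 : |z y| ^ 5 ≤ (m * D) ^ 5 := pow_le_pow_left₀ (abs_nonneg _) zb 5
      have h2 : (m * D) ^ 5 = m ^ 3 * (m ^ 2 * D ^ 5) := by ring
      have h3 : m ^ 3 ≤ 2 ^ 3 := pow_le_pow_left₀ hm hm2 3
      have h4 := mul_le_mul_of_nonneg_right h3 (by positivity : 0 ≤ m ^ 2 * D ^ 5)
      linarith
    have hsum : (z y + e y) ^ 2 + |z y + e y| ^ 5 ≤
        (2 * D ^ 2 + 128 * D ^ 5) * m ^ 2 + (2 * e y ^ 2 + 16 * |e y| ^ 5) := by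
      nlinarith
    have V0 : (0 : ℝ) ≤ V := by linarith
    have hb0 : 0 ≤ (z y + e y) ^ 2 + |z y + e y| ^ 5 := by positivity
    have s1 : |(v y + (z y + e y)) ^ 5 - v y ^ 5 - 5 * v y ^ 4 * (z y + e y)| * |F1 y| ≤
        (26 * V ^ 3 * ((z y + e y) ^ 2 + |z y + e y| ^ 5)) *
          (D * exp (-(3 / 4) * |y|)) :=
      mul_le_mul q1 (hF y) (abs_nonneg _) (by positivity)
    have s2 : (26 * V ^ 3 * ((z y + e y) ^ 2 + |z y + e y| ^ 5)) *
          (D * exp (-(3 / 4) * |y|)) ≤ (26 * V ^ 3 * ((2 * D ^ 2 + 128 * D ^ 5) * m ^ 2 +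
            (2 * e y ^ 2 + 16 * |e y| ^ 5))) * (D * exp (-(3 / 4) * |y|)) := by
      apply mul_le_mul_of_nonneg_right _ (by positivity)
      exact mul_le_mul_of_nonneg_left hsum (by positivity)
    have s3 : e y ^ 2 * exp (-(3 / 4) * |y|) ≤ e y ^ 2 * exp (-|y| / 2) :=
      mul_le_mul_of_nonneg_left (exp34_le y) (sq_nonneg _)
    have s4 : 26 * V ^ 3 * D * (2 * (e y ^ 2 * exp (-(3 / 4) * |y|))) ≤
        26 * V ^ 3 * D * (2 * (e y ^ 2 * exp (-|y| / 2))) := by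
      apply mul_le_mul_of_nonneg_left _ (by positivity)
      linarith
    rw [hG]
    refine (s1.trans s2).trans ?_
    have s5 : (26 * V ^ 3 * ((2 * D ^ 2 + 128 * D ^ 5) * m ^ 2 +
            (2 * e y ^ 2 + 16 * |e y| ^ 5))) * (D * exp (-(3 / 4) * |y|)) =
        26 * V ^ 3 * D * ((2 * D ^ 2 + 128 * D ^ 5) * m ^ 2 * exp (-(3 / 4) * |y|) +
          16 * (|e y| ^ 5 * exp (-(3 / 4) * |y|))) +
        26 * V ^ 3 * D * (2 * (e y ^ 2 * exp (-(3 / 4) * |y|))) := by ring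
    rw [s5]
    have s6 : 26 * V ^ 3 * D * ((2 * D ^ 2 + 128 * D ^ 5) * m ^ 2 *
        exp (-(3 / 4) * |y|) + (2 * (e y ^ 2 * exp (-|y| / 2)) +
        16 * (|e y| ^ 5 * exp (-(3 / 4) * |y|)))) =
        26 * V ^ 3 * D * ((2 * D ^ 2 + 128 * D ^ 5) * m ^ 2 * exp (-(3 / 4) * |y|) +
          16 * (|e y| ^ 5 * exp (-(3 / 4) * |y|))) +
        26 * V ^ 3 * D * (2 * (e y ^ 2 * exp (-|y| / 2))) := by ring
    show _ ≤ 26 * V ^ 3 * D * ((2 * D ^ 2 + 128 * D ^ 5) * m ^ 2 *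
        exp (-(3 / 4) * |y|) + (2 * (e y ^ 2 * exp (-|y| / 2)) +
        16 * (|e y| ^ 5 * exp (-(3 / 4) * |y|))))
    rw [s6]
    linarith
  have hI := norm_integral_le_of_norm_le iG (Filter.Eventually.of_forall hpw)
  rw [Real.norm_eq_abs] at hI
  refine hI.trans ?_
  have hGi : ∫ y, G y = 26 * V ^ 3 * D * ((2 * D ^ 2 + 128 * D ^ 5) * m ^ 2 *
      (∫ y, exp (-(3 / 4) * |y|)) + (2 * (∫ y, e y ^ 2 * exp (-|y| / 2)) +
      16 * (∫ y, |e y| ^ 5 * exp (-(3 / 4) * |y|)))) := by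
    have iBC : Integrable (fun y => 2 * (e y ^ 2 * exp (-|y| / 2)) +
        16 * (|e y| ^ 5 * exp (-(3 / 4) * |y|))) := iB.add iC
    rw [hG, integral_const_mul, integral_add iA iBC, integral_const_mul, integral_add iB iC,
      integral_const_mul, integral_const_mul]
  rw [hGi]
  have V0 : (0 : ℝ) ≤ V := by linarith
  apply mul_le_mul_of_nonneg_left _ (by positivity)
  have hpow : H ^ ((5 : ℝ) / 2) ≤ H := by
    have := Real.rpow_le_rpow_of_exponent_ge' hH hH1 (by norm_num : (0 : ℝ) ≤ 1)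
      (by norm_num : (1 : ℝ) ≤ 5 / 2)
    rwa [Real.rpow_one] at this
  linarith

/-! ### the residual term -/

theorem resid_bound {w R F : ℝ → ℝ} {ρ C D : ℝ} {N0 : ℕ} (hρ : 0 < ρ) (hwc : Continuous w)
    (hw : ∀ y, exp (-|y| / 64) / 2 ≤ w y ∧ w y ≤ 1) (hRs : ContDiff ℝ (⊤ : ℕ∞) R)
    (hR0 : MemLp R 2) (hR1 : MemLp (deriv R) 2)
    (hR : ∫ y, w y * (R y ^ 2 + deriv R y ^ 2) ≤ C * ρ ^ (2 * N0))
    (hD : 0 ≤ D) (hF : ∀ y, |F y| ≤ D * exp (-(3 / 4) * |y|)) :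
    |∫ y, R y * F y| ≤ ρ ^ N0 * (|C| + D ^ 2 * ∫ y, exp (-|y| / 2)) := by
  have hR1c : Continuous (deriv R) := (contDiff_infty_iff_deriv.1 hRs).2.continuous
  have s0 := (memLp_two_iff_integrable_sq hRs.continuous.aestronglyMeasurable).1 hR0
  have s1 := (memLp_two_iff_integrable_sq hR1c.aestronglyMeasurable).1 hR1
  have hw0 : ∀ y, 0 < w y := fun y => lt_of_lt_of_le (by positivity) (hw y).1
  have hRc := hRs.continuous
  have iW : Integrable (fun y => w y * (R y ^ 2 + deriv R y ^ 2)) := by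
    refine (s0.add s1).mono' (by fun_prop) (Filter.Eventually.of_forall fun y => ?_)
    rw [Real.norm_eq_abs, abs_of_nonneg (mul_nonneg (hw0 y).le (by positivity))]
    have := mul_le_mul_of_nonneg_right (hw y).2 (by positivity : 0 ≤ R y ^ 2 + deriv R y ^ 2)
    simp only [Pi.add_apply]
    linarith
  have iE := int_exp_half
  have hρN : 0 < ρ ^ N0 := pow_pos hρ N0
  set G : ℝ → ℝ := fun y => (1 / 2) * ((ρ ^ N0)⁻¹ * (w y * (R y ^ 2 + deriv R y ^ 2))) +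
    (ρ ^ N0 * D ^ 2) * exp (-|y| / 2) with hG
  have iA := (iW.const_mul (ρ ^ N0)⁻¹).const_mul (1 / 2)
  have iB := iE.const_mul (ρ ^ N0 * D ^ 2)
  have iG : Integrable G := iA.add iB
  have hpw : ∀ y, ‖R y * F y‖ ≤ G y := by
    intro y
    rw [Real.norm_eq_abs]
    have k0 : 0 ≤ w y * R y ^ 2 := mul_nonneg (hw0 y).le (sq_nonneg _)
    have kF : F y ^ 2 ≤ w y * (2 * D ^ 2 * exp (-|y| / 2)) := by
      have f1 : F y ^ 2 ≤ (D * exp (-(3 / 4) * |y|)) ^ 2 := by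
        rw [← sq_abs]
        exact pow_le_pow_left₀ (abs_nonneg _) (hF y) 2
      have f2 : (D * exp (-(3 / 4) * |y|)) ^ 2 ≤ D ^ 2 * (exp (-|y| / 64) * exp (-|y| / 2)) := by
        rw [mul_pow, ← Real.exp_nat_mul, ← Real.exp_add]
        apply mul_le_mul_of_nonneg_left _ (sq_nonneg D)
        apply exp_le_exp.2
        have := abs_nonneg y
        push_cast
        linarith
      have f3 : D ^ 2 * (exp (-|y| / 64) * exp (-|y| / 2)) =
          (exp (-|y| / 64) / 2) * (2 * D ^ 2 * exp (-|y| / 2)) := by ring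
      have f4 := mul_le_mul_of_nonneg_right (hw y).1
        (by positivity : 0 ≤ 2 * D ^ 2 * exp (-|y| / 2))
      linarith
    have hG1 : 0 ≤ (ρ ^ N0)⁻¹ * (w y * R y ^ 2) := mul_nonneg (by positivity) k0
    have hG2 : 0 ≤ (ρ ^ N0) * (2 * D ^ 2 * exp (-|y| / 2)) := by positivity
    have k1 : |R y * F y| ≤ (1 / 2) * ((ρ ^ N0)⁻¹ * (w y * R y ^ 2)) +
        (1 / 2) * (ρ ^ N0 * (2 * D ^ 2 * exp (-|y| / 2))) := by
      apply abs_le_of_sq_le_sq _ (by linarith)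
      have e1 : (R y * F y) ^ 2 ≤ R y ^ 2 * (w y * (2 * D ^ 2 * exp (-|y| / 2))) := by
        rw [mul_pow]
        exact mul_le_mul_of_nonneg_left kF (sq_nonneg _)
      have e2 : ((ρ ^ N0)⁻¹ * (w y * R y ^ 2)) * ((ρ ^ N0) * (2 * D ^ 2 * exp (-|y| / 2))) =
          R y ^ 2 * (w y * (2 * D ^ 2 * exp (-|y| / 2))) := by
        field_simp
      nlinarith [sq_nonneg ((ρ ^ N0)⁻¹ * (w y * R y ^ 2) -
        (ρ ^ N0) * (2 * D ^ 2 * exp (-|y| / 2)))]
    have k2 : (ρ ^ N0)⁻¹ * (w y * R y ^ 2) ≤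
        (ρ ^ N0)⁻¹ * (w y * (R y ^ 2 + deriv R y ^ 2)) := by
      apply mul_le_mul_of_nonneg_left _ (by positivity)
      apply mul_le_mul_of_nonneg_left _ (hw0 y).le
      have := sq_nonneg (deriv R y)
      linarith
    show _ ≤ (1 / 2) * ((ρ ^ N0)⁻¹ * (w y * (R y ^ 2 + deriv R y ^ 2))) +
      (ρ ^ N0 * D ^ 2) * exp (-|y| / 2)
    linarith
  have hI := norm_integral_le_of_norm_le iG (Filter.Eventually.of_forall hpw)
  rw [Real.norm_eq_abs] at hI
  refine hI.trans ?_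
  rw [hG, integral_add iA iB, integral_const_mul, integral_const_mul, integral_const_mul]
  have e3 : (ρ ^ N0)⁻¹ * (∫ y, w y * (R y ^ 2 + deriv R y ^ 2)) ≤ |C| * ρ ^ N0 := by
    have e4 : (∫ y, w y * (R y ^ 2 + deriv R y ^ 2)) ≤ |C| * ρ ^ (2 * N0) :=
      hR.trans (mul_le_mul_of_nonneg_right (le_abs_self C) (by positivity))
    have e5 := mul_le_mul_of_nonneg_left e4 (inv_pos.2 hρN).le
    have e6 : (ρ ^ N0)⁻¹ * (|C| * ρ ^ (2 * N0)) = |C| * ρ ^ N0 := by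
      rw [two_mul, pow_add]
      field_simp
    linarith
  have e7 : 0 ≤ |C| * ρ ^ N0 := by positivity
  nlinarith

/-! ### the remainder `etaI` -/

theorem eta_facts {α : ℝ} {Z V2 : ℝ → ℝ} {u W : ℝ → ℝ → ℝ} {a b : ℝ → ℝ} {t t1 t2 : ℝ}
    (hl : lam α t ≠ 0) (hu : HInf u t1 t2) (hW : HInf W t1 t2) (ht : t ∈ Set.Icc t1 t2)
    (hA : IsE (tauA α Z (rho α t))) (hB : IsE (tauB α Z V2 (rho α t))) :
    ContDiff ℝ (⊤ : ℕ∞) (etaI α Z V2 u W a b t) ∧ MemLp (etaI α Z V2 u W a b t) 2 ∧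
      MemLp (deriv (etaI α Z V2 u W a b t)) 2 := by
  have su := hu.smooth t ht
  have sW := hW.smooth t ht
  have iu := contDiff_inn (α := α) su
  have iW := contDiff_inn (α := α) sW
  have mu0 : MemLp (u t) 2 := by
    have := hu.memLp 0 t ht
    rwa [iteratedDeriv_zero] at this
  have mu1 : MemLp (deriv (u t)) 2 := by
    have := hu.memLp 1 t ht
    rwa [iteratedDeriv_one] at this
  have mW0 : MemLp (W t) 2 := by
    have := hW.memLp 0 t ht
    rwa [iteratedDeriv_zero] at this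
  have mW1 : MemLp (deriv (W t)) 2 := by
    have := hW.memLp 1 t ht
    rwa [iteratedDeriv_one] at this
  have he : etaI α Z V2 u W a b t = fun y => inn α u t y - inn α W t y
      - a t * tauA α Z (rho α t) y - b t * tauB α Z V2 (rho α t) y := rfl
  have hd : deriv (etaI α Z V2 u W a b t) = fun y => deriv (inn α u t) y - deriv (inn α W t) y
      - a t * deriv (tauA α Z (rho α t)) y - b t * deriv (tauB α Z V2 (rho α t)) y := by
    funext y
    rw [he]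
    have d1 := ((contDiff_infty_iff_deriv.1 iu).1 y).hasDerivAt
    have d2 := ((contDiff_infty_iff_deriv.1 iW).1 y).hasDerivAt
    have d3 := ((contDiff_infty_iff_deriv.1 hA.1).1 y).hasDerivAt
    have d4 := ((contDiff_infty_iff_deriv.1 hB.1).1 y).hasDerivAt
    exact (((d1.sub d2).sub (d3.const_mul (a t))).sub (d4.const_mul (b t))).deriv
  refine ⟨?_, ?_, ?_⟩
  · rw [he]
    exact ((iu.sub iW).sub (contDiff_const.mul hA.1)).sub (contDiff_const.mul hB.1)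
  · rw [he]
    exact (((memLp_inn hl su mu0).sub (memLp_inn hl sW mW0)).sub
      ((memLp_E hA).const_mul _)).sub ((memLp_E hB).const_mul _)
  · rw [hd]
    exact (((memLp_deriv_inn hl su mu1).sub (memLp_deriv_inn hl sW mW1)).sub
      ((memLp_E (derE hA)).const_mul _)).sub ((memLp_E (derE hB)).const_mul _)

end Pool.Agent.Helper33.KV.LawQ19

namespace Pool.Agent.Helper33.KV

open Real MeasureTheory Pool.Agent.Helper41.KV

open LawQ19 in
theorem thm_LAWQ (hQ : S_QF) (hE : S_ECL1) (hP : S_PR) (hC : S_CURVE) (hN : S_IDN) (hI : S_IDL)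
    (hT : S_TAUB) (hS : S_SRC) (hA : S_PAIR) (hL : S_WTL) (hW : S_WEAKE) : S_LAWQ := by
  intro α K C n Z Y V2 hα0 hα1 hK h1 h2 h3
  obtain ⟨cv1, cv2, cv3⟩ := hC α hα0 hα1
  obtain ⟨hE3, Cτ, ρ1, hρ1pos, hρ1le, hTB⟩ := hT α Z Y V2 h1 h2 h3
  obtain ⟨CP, hCPP⟩ := hA α K C n Z Y V2 hα0 hα1 hK h1 h2 h3
  obtain ⟨CR, hCR0, hCR⟩ := lin_bound hQ hI h1 h2 h3 C
  obtain ⟨CY, hCY0, hCY⟩ := bd_E h2.isE
  obtain ⟨D, hDdef⟩ : ∃ D, D = |Cτ| := ⟨_, rfl⟩
  have hD0 : 0 ≤ D := by rw [hDdef]; exact abs_nonneg _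
  have hD1 : Cτ ≤ D := by rw [hDdef]; exact le_abs_self _
  obtain ⟨V, hVdef⟩ : ∃ V, V = 2 * |C| + 1 := ⟨_, rfl⟩
  have hV1 : 1 ≤ V := by rw [hVdef]; linarith [abs_nonneg C]
  obtain ⟨J, hJdef⟩ : ∃ J, J = ∫ y, exp (-(3 / 4) * |y|) := ⟨_, rfl⟩
  have hJ0 : 0 ≤ J := by rw [hJdef]; exact integral_nonneg fun y => (exp_pos _).le
  obtain ⟨J2, hJ2def⟩ : ∃ J2, J2 = ∫ y, exp (-|y| / 2) := ⟨_, rfl⟩
  have hJ20 : 0 ≤ J2 := by rw [hJ2def]; exact integral_nonneg fun y => (exp_pos _).le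
  obtain ⟨Cq, hCq⟩ : ∃ Cq, Cq = 26 * V ^ 3 * D * ((2 * D ^ 2 + 128 * D ^ 5) * J) := ⟨_, rfl⟩
  have hV0 : 0 ≤ V := by linarith
  have hCq0 : 0 ≤ Cq := by rw [hCq]; positivity
  obtain ⟨Ch, hCh⟩ : ∃ Ch, Ch = 26 * V ^ 3 * D * 260 := ⟨_, rfl⟩
  have hCh0 : 0 ≤ Ch := by rw [hCh]; positivity
  obtain ⟨Cr, hCr⟩ : ∃ Cr, Cr = |C| + D ^ 2 * J2 := ⟨_, rfl⟩
  have hCr0 : 0 ≤ Cr := by rw [hCr]; positivity
  obtain ⟨Cz, hCz⟩ : ∃ Cz, Cz = 2 * |α| * |kap α| * CY * 4 := ⟨_, rfl⟩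
  have hCz0 : 0 ≤ Cz := by rw [hCz]; positivity
  obtain ⟨C', hC'⟩ : ∃ C', C' = 4 * CR + Cz + 2 * Cq + Ch + Cr + D + |CP| := ⟨_, rfl⟩
  have hCP0 := abs_nonneg CP
  refine ⟨ρ1, C', hρ1pos, ?_⟩
  intro N0 T W Wt r r' hN0 hT0 hρT hB
  have hρ : ∀ t ∈ Set.Ioc 0 T, 0 < rho α t ∧ rho α t ≤ 1 := fun t ht =>
    ⟨(cv1 t ht.1).2.2.1, ((cv2 t T ht.1 ht.2).2.2).trans hρT⟩
  have hCP := hCPP N0 T W Wt r r' hN0 hT0 hρT hB
  have hWk := hW α N0 K T C n Z Y V2 W Wt r r' hα0 hα1 hT0 h1 h2 h3 hB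
  intro u t1 t2 ht1 ht12 ht2T hρt2 hu a b a' b' hab t ht
  have htT : t ∈ Set.Ioc 0 T := ⟨lt_of_lt_of_le ht1 ht.1, ht.2.trans ht2T⟩
  have ht0 : 0 < t := htT.1
  have hlam : 0 < lam α t := (cv1 t ht0).2.1
  have hρ0 := (hρ t htT).1
  have hρ1' := (hρ t htT).2
  have hρρ1 : rho α t ≤ ρ1 := ((cv2 t t2 ht0 ht.2).2.2).trans hρt2
  have hdρ : HasDerivAt (rho α) (2 * α * rho α t ^ 2 / lam α t ^ 3) t := (cv1 t ht0).2.2.2.2.2.2.2
  -- the test function
  obtain ⟨EtA, EtB, EF⟩ := hE3 (rho α t)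
  have EY := h2.isE
  have hWinf := (hB.hinf t1 t2 ht1 ht12.le ht2T).1
  have hlne : ∀ τ ∈ Set.Icc t1 t2, lam α τ ≠ 0 := fun τ hτ =>
    ((cv1 τ (lt_of_lt_of_le ht1 hτ.1)).2.1).ne'
  have heta : ∀ τ ∈ Set.Icc t1 t2, _ := fun τ hτ =>
    eta_facts (a := a) (b := b) (hlne τ hτ) hu.hinf hWinf hτ (hE3 (rho α τ)).1 (hE3 (rho α τ)).2.1
  obtain ⟨se, me0, me1⟩ := heta t ht
  have dF := hWk u t1 t2 ht1 ht12 ht2T hu a b a' b' hab _ EF t ht
  have dY := hWk u t1 t2 ht1 ht12 ht2T hu a b a' b' hab _ EY t ht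
  have hrho : HasDerivWithinAt (fun τ => rho α τ - rho α t)
      (2 * α * rho α t ^ 2 / lam α t ^ 3) (Set.Icc t1 t2) t :=
    (hdρ.hasDerivWithinAt).sub_const _
  have hprod := hrho.mul (dY.const_mul (kap α))
  have hsum := dF.add hprod
  have hexpand : ∀ τ ∈ Set.Icc t1 t2, (∫ y, etaI α Z V2 u W a b τ y * Th α Y (rho α τ) y) =
      (∫ y, etaI α Z V2 u W a b τ y * Th α Y (rho α t) y) +
      (rho α τ - rho α t) * (kap α * ∫ y, etaI α Z V2 u W a b τ y * Y y) := by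
    intro τ hτ
    have i1 : Integrable (fun y => etaI α Z V2 u W a b τ y * Th α Y (rho α t) y) :=
      (heta τ hτ).2.1.integrable_mul (memLp_E EF)
    have i2 : Integrable (fun y => etaI α Z V2 u W a b τ y * Y y) :=
      (heta τ hτ).2.1.integrable_mul (memLp_E EY)
    rw [← mul_assoc, ← integral_const_mul, ← integral_add i1 (i2.const_mul _)]
    refine integral_congr_ae (Filter.Eventually.of_forall fun y => ?_)
    simp only [Th]
    ring
  refine ⟨_, hsum.congr hexpand (hexpand t ht), ?_⟩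
  intro ha1 hb1 hH1
  obtain ⟨w1, w2, w3, w4, w5⟩ := hL K (rho α t) hK hρ0 hρ1' (etaI α Z V2 u W a b t)
    (se.of_le (by exact_mod_cast le_top)) me0 me1
  obtain ⟨R, hRc, hRb, hReq⟩ := hCR (rho α t) (r t) (inn α W t) hρ0 hρ1'
    (hB.rbd t htT).1.continuous (fun y => by
      have := (hB.rbd t htT).2 0 (by norm_num) y
      rwa [iteratedDeriv_zero] at this) (hB.expn t htT)
  have hH : hsq α K (etaI α Z V2 u W a b) t = ∫ y, wt K (rho α t) y *
    (deriv (etaI α Z V2 u W a b t) y ^ 2 + etaI α Z V2 u W a b t y ^ 2) := rfl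
  rw [← hH] at w2 w3 w4 w5
  obtain ⟨H, hHdef⟩ : ∃ H, H = hsq α K (etaI α Z V2 u W a b) t := ⟨_, rfl⟩
  rw [← hHdef] at w2 w3 w4 w5 hH1
  have hH0 : 0 ≤ H := by
    rw [hHdef, hH]
    refine integral_nonneg fun y => ?_
    have : 0 ≤ wt K (rho α t) y := le_trans (by positivity) (w1 y).1
    positivity
  obtain ⟨tb1, tb2, tb3, -⟩ := hTB (rho α t) hρ0.le hρρ1
  have bA : ∀ y, |tauA α Z (rho α t) y| ≤ D * exp (-(3 / 4) * |y|) := fun y => by
    have := (tb1 0 (by norm_num) y).1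
    rw [iteratedDeriv_zero] at this
    exact this.trans (mul_le_mul_of_nonneg_right hD1 (exp_pos _).le)
  have bB : ∀ y, |tauB α Z V2 (rho α t) y| ≤ D * exp (-(3 / 4) * |y|) := fun y => by
    have := (tb1 0 (by norm_num) y).2.1
    rw [iteratedDeriv_zero] at this
    exact this.trans (mul_le_mul_of_nonneg_right hD1 (exp_pos _).le)
  have bF : ∀ y, |Th α Y (rho α t) y| ≤ D * exp (-(3 / 4) * |y|) := fun y => by
    have := (tb1 0 (by norm_num) y).2.2.1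
    rw [iteratedDeriv_zero] at this
    exact this.trans (mul_le_mul_of_nonneg_right hD1 (exp_pos _).le)
  have bF1 : ∀ y, |deriv (Th α Y (rho α t)) y| ≤ D * exp (-(3 / 4) * |y|) := fun y => by
    have := (tb1 1 (by norm_num) y).2.2.1
    rw [iteratedDeriv_one] at this
    exact this.trans (mul_le_mul_of_nonneg_right hD1 (exp_pos _).le)
  -- the linear term
  have lin1 : (∫ y, etaI α Z V2 u W a b t y * (deriv (deriv (deriv (Th α Y (rho α t)))) y
      - deriv (Th α Y (rho α t)) y + 5 * inn α W t y ^ 4 * deriv (Th α Y (rho α t)) y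
      - (2 * α + 1) * rho α t * Lam (Th α Y (rho α t)) y)) =
      rho α t ^ 2 * (∫ y, etaI α Z V2 u W a b t y * R y) +
      2 * (2 * α + 1) * rho α t * ∫ y, etaI α Z V2 u W a b t y * Th α Y (rho α t) y := by
    have i1 : Integrable (fun y => etaI α Z V2 u W a b t y * R y) :=
      pair_int me0 hRc.aestronglyMeasurable hRb
    have i2 : Integrable (fun y => etaI α Z V2 u W a b t y * Th α Y (rho α t) y) :=
      me0.integrable_mul (memLp_E EF)
    rw [← integral_const_mul, ← integral_const_mul,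
      ← integral_add (i1.const_mul _) (i2.const_mul _)]
    refine integral_congr_ae (Filter.Eventually.of_forall fun y => ?_)
    simp only
    rw [hReq y]
    ring
  have X1 : |∫ y, etaI α Z V2 u W a b t y * R y| ≤ CR * (4 * √H) :=
    (pair_bd me0 hRc.aestronglyMeasurable hRb).trans (mul_le_mul_of_nonneg_left w2 hCR0)
  have X2 : |∫ y, etaI α Z V2 u W a b t y * Y y| ≤ CY * (4 * √H) :=
    (pair_bd me0 EY.1.continuous.aestronglyMeasurable (fun y =>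
      (hCY y).trans (mul_le_mul_of_nonneg_left (exp34_le y) hCY0))).trans
      (mul_le_mul_of_nonneg_left w2 hCY0)
  -- the quadratic term
  obtain ⟨m, hm⟩ : ∃ m, m = |a t| + |b t| := ⟨_, rfl⟩
  have hm0 : 0 ≤ m := by rw [hm]; positivity
  have hm2 : m ≤ 2 := by rw [hm]; linarith
  have hvb : ∀ y, |inn α W t y| ≤ V := by
    intro y
    refine (hB.b0 t htT y).trans ?_
    have e1 : exp (-|y| / 2) ≤ 1 := by
      apply exp_le_one_iff.2
      have := abs_nonneg y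
      linarith
    have e2 : rho α t ^ ((1 : ℝ) / 2) ≤ 1 := Real.rpow_le_one hρ0.le hρ1' (by norm_num)
    have e3 : 0 ≤ exp (-|y| / 2) + rho α t ^ ((1 : ℝ) / 2) := by positivity
    calc C * (exp (-|y| / 2) + rho α t ^ ((1 : ℝ) / 2))
        ≤ |C| * (exp (-|y| / 2) + rho α t ^ ((1 : ℝ) / 2)) :=
          mul_le_mul_of_nonneg_right (le_abs_self C) e3
      _ ≤ |C| * 2 := mul_le_mul_of_nonneg_left (by linarith) (abs_nonneg _)
      _ ≤ V := by rw [hVdef]; linarith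
  have hzb : ∀ y, |a t * tauA α Z (rho α t) y + b t * tauB α Z V2 (rho α t) y| ≤
      m * D * exp (-(3 / 4) * |y|) := by
    intro y
    refine (abs_add_le _ _).trans ?_
    rw [abs_mul, abs_mul]
    have e1 := mul_le_mul_of_nonneg_left (bA y) (abs_nonneg (a t))
    have e2 := mul_le_mul_of_nonneg_left (bB y) (abs_nonneg (b t))
    rw [hm]
    linarith
  have X3 := quad_bound hV1 hvb hD0 hm0 hm2 hzb bF1 se.continuous me0 hH0 hH1 w3 w4 w5
  have X3' : (∫ y, (inn α u t y ^ 5 - inn α W t y ^ 5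
      - 5 * inn α W t y ^ 4 * (inn α u t y - inn α W t y)) * deriv (Th α Y (rho α t)) y) =
      ∫ y, ((inn α W t y + (a t * tauA α Z (rho α t) y + b t * tauB α Z V2 (rho α t) y
        + etaI α Z V2 u W a b t y)) ^ 5 - inn α W t y ^ 5 - 5 * inn α W t y ^ 4 *
        (a t * tauA α Z (rho α t) y + b t * tauB α Z V2 (rho α t) y
        + etaI α Z V2 u W a b t y)) * deriv (Th α Y (rho α t)) y := by
    refine integral_congr_ae (Filter.Eventually.of_forall fun y => ?_)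
    simp only [etaI]
    ring
  rw [← X3', ← hJdef] at X3
  -- the residual
  obtain ⟨sr, mr0, mr1⟩ := resid_facts (α := α) (t := t) hlam.ne'
    (hB.hinf t t ht0 le_rfl htT.2).1 (hB.hinf t t ht0 le_rfl htT.2).2.1 (hB.supp t htT)
  have hwc : Continuous (wt K (rho α t)) := by
    unfold wt
    refine Continuous.div continuous_const (by fun_prop) fun y => ?_
    have := exp_pos (-(y / K))
    positivity
  have X4 := resid_bound hρ0 hwc w1 sr mr0 mr1 (hB.res t htT) hD0 bF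
  rw [← hJ2def, ← hCr] at X4
  -- the other terms
  have X5 := (tb2.trans (mul_le_mul_of_nonneg_right hD1 (sq_nonneg (rho α t))))
  have X6 := (tb3.trans (mul_le_mul_of_nonneg_right hD1 (sq_nonneg (rho α t))))
  obtain ⟨X7, X8⟩ := hCP t htT
  have X7' := X7.trans (mul_le_mul_of_nonneg_right (le_abs_self CP) (by positivity))
  have X8' := X8.trans (mul_le_mul_of_nonneg_right (le_abs_self CP) (by positivity))
  rw [lin1, ← hHdef]
  -- abbreviations
  generalize (∫ y, etaI α Z V2 u W a b t y * R y) = x1 at X1 ⊢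
  generalize (∫ y, etaI α Z V2 u W a b t y * Y y) = x2 at X2 ⊢
  generalize (∫ y, (inn α u t y ^ 5 - inn α W t y ^ 5
      - 5 * inn α W t y ^ 4 * (inn α u t y - inn α W t y)) * deriv (Th α Y (rho α t)) y) = x3
      at X3 ⊢
  generalize (∫ y, resid α W Wt t y * Th α Y (rho α t) y) = x4 at X4 ⊢
  generalize (∫ y, tauA α Z (rho α t) y * Th α Y (rho α t) y) = x5 at X5 ⊢
  generalize (∫ y, tauB α Z V2 (rho α t) y * Th α Y (rho α t) y) = x6 at X6 ⊢
  generalize (∫ y, srcA α Z V2 (inn α W t) (rho α t) y * Th α Y (rho α t) y) = x7 at X7' ⊢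
  generalize (∫ y, srcB α Z V2 (inn α W t) (rho α t) y * Th α Y (rho α t) y) = x8 at X8' ⊢
  generalize (∫ y, etaI α Z V2 u W a b t y * Th α Y (rho α t) y) = qF
  rw [sub_self, zero_mul, add_zero]
  have hL0 : lam α t ≠ 0 := hlam.ne'
  generalize lam α t = L at hL0 ⊢
  generalize AA α a b a' t = A
  generalize BB α a b b' t = B
  generalize a t = at' at ha1 hm X1 ⊢
  generalize b t = bt' at hb1 hm X1 ⊢
  generalize rho α t = ρ at hρ0 hρ1' X1 X2 X3 X4 X5 X6 X7' X8' ⊢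
  have key : L ^ 3 * (1 / L ^ 3 * (ρ ^ 2 * x1 + 2 * (2 * α + 1) * ρ * qF + x3 - x4 - A * x5
      - B * x6 - at' * x7 - bt' * x8) + 2 * α * ρ ^ 2 / L ^ 3 * (kap α * x2))
      - 2 * (2 * α + 1) * ρ * qF =
      ρ ^ 2 * x1 + x3 - x4 - A * x5 - B * x6 - at' * x7 - bt' * x8
        + 2 * α * kap α * ρ ^ 2 * x2 := by
    field_simp
    ring
  rw [key]
  have hS0 : 0 ≤ √H := Real.sqrt_nonneg _
  generalize √H = S at hS0 X1 X2 ⊢
  have y1 : |ρ ^ 2 * x1| ≤ (4 * CR) * (ρ ^ 2 * S) := by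
    rw [abs_mul, abs_of_nonneg (sq_nonneg ρ)]
    have := mul_le_mul_of_nonneg_left X1 (sq_nonneg ρ)
    linarith
  have y2 : |2 * α * kap α * ρ ^ 2 * x2| ≤ Cz * (ρ ^ 2 * S) := by
    rw [abs_mul, abs_mul, abs_mul, abs_mul, abs_of_nonneg (sq_nonneg ρ),
      abs_of_pos (by norm_num : (0 : ℝ) < 2), hCz]
    have := mul_le_mul_of_nonneg_left X2
      (by positivity : 0 ≤ 2 * |α| * |kap α| * ρ ^ 2)
    linarith
  have y3 : |x3| ≤ Cq * m ^ 2 + Ch * H := by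
    refine X3.trans (le_of_eq ?_)
    rw [hCq, hCh]; ring
  have y4 : |x4| ≤ Cr * ρ ^ N0 := by linarith
  have y5 : |A * x5| ≤ D * (ρ ^ 2 * |A|) := by
    rw [abs_mul]
    have := mul_le_mul_of_nonneg_left X5 (abs_nonneg A)
    linarith
  have y6 : |B * x6| ≤ D * (ρ ^ 2 * |B|) := by
    rw [abs_mul]
    have := mul_le_mul_of_nonneg_left X6 (abs_nonneg B)
    linarith
  have y7 : |at' * x7| ≤ |CP| * (ρ ^ 3 * |at'|) := by
    rw [abs_mul]
    have := mul_le_mul_of_nonneg_left X7' (abs_nonneg at')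
    linarith
  have y8 : |bt' * x8| ≤ |CP| * (ρ ^ 4 * |bt'|) := by
    rw [abs_mul]
    have := mul_le_mul_of_nonneg_left X8' (abs_nonneg bt')
    linarith
  have hm3 : m ^ 2 ≤ 2 * (at' ^ 2 + bt' ^ 2) := by
    rw [hm]
    have e1 := sq_abs at'
    have e2 := sq_abs bt'
    nlinarith [sq_nonneg (|at'| - |bt'|)]
  have y3' : Cq * m ^ 2 ≤ (2 * Cq) * (at' ^ 2 + bt' ^ 2) := by
    have := mul_le_mul_of_nonneg_left hm3 hCq0
    linarith
  have tri : |ρ ^ 2 * x1 + x3 - x4 - A * x5 - B * x6 - at' * x7 - bt' * x8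
        + 2 * α * kap α * ρ ^ 2 * x2| ≤ |ρ ^ 2 * x1| + |x3| + |x4| + |A * x5| + |B * x6|
        + |at' * x7| + |bt' * x8| + |2 * α * kap α * ρ ^ 2 * x2| := by
    have s1 := abs_add_le (ρ ^ 2 * x1 + x3 - x4 - A * x5 - B * x6 - at' * x7 - bt' * x8)
      (2 * α * kap α * ρ ^ 2 * x2)
    have s2 := abs_sub (ρ ^ 2 * x1 + x3 - x4 - A * x5 - B * x6 - at' * x7) (bt' * x8)
    have s3 := abs_sub (ρ ^ 2 * x1 + x3 - x4 - A * x5 - B * x6) (at' * x7)
    have s4 := abs_sub (ρ ^ 2 * x1 + x3 - x4 - A * x5) (B * x6)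
    have s5 := abs_sub (ρ ^ 2 * x1 + x3 - x4) (A * x5)
    have s6 := abs_sub (ρ ^ 2 * x1 + x3) x4
    have s7 := abs_add_le (ρ ^ 2 * x1) x3
    linarith
  have m1 : 0 ≤ ρ ^ 2 * S := by positivity
  have m2 : 0 ≤ ρ ^ 3 * |at'| := by positivity
  have m3 : 0 ≤ ρ ^ 4 * |bt'| := by positivity
  have m4 : 0 ≤ ρ ^ 2 * |A| := by positivity
  have m5 : 0 ≤ ρ ^ 2 * |B| := by positivity
  have m6 : 0 ≤ at' ^ 2 + bt' ^ 2 := by positivity
  have m7 : 0 ≤ ρ ^ N0 := by positivity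
  have c1 : 4 * CR + Cz ≤ C' := by rw [hC']; linarith
  have c2 : 2 * Cq ≤ C' := by rw [hC']; linarith
  have c3 : Ch ≤ C' := by rw [hC']; linarith
  have c4 : Cr ≤ C' := by rw [hC']; linarith
  have c5 : D ≤ C' := by rw [hC']; linarith
  have c6 : |CP| ≤ C' := by rw [hC']; linarith
  have k1 := mul_le_mul_of_nonneg_right c1 m1
  have k2 := mul_le_mul_of_nonneg_right c2 m6
  have k3 := mul_le_mul_of_nonneg_right c3 hH0
  have k4 := mul_le_mul_of_nonneg_right c4 m7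
  have k5 := mul_le_mul_of_nonneg_right c5 m4
  have k6 := mul_le_mul_of_nonneg_right c5 m5
  have k7 := mul_le_mul_of_nonneg_right c6 m2
  have k8 := mul_le_mul_of_nonneg_right c6 m3
  clear hC'
  have fin : C' * (ρ ^ 2 * S + H + ρ ^ 3 * |at'| + ρ ^ 4 * |bt'| + ρ ^ 2 * (|A| + |B|)
      + at' ^ 2 + bt' ^ 2 + ρ ^ N0) = C' * (ρ ^ 2 * S) + C' * H + C' * (ρ ^ 3 * |at'|)
      + C' * (ρ ^ 4 * |bt'|) + C' * (ρ ^ 2 * |A|) + C' * (ρ ^ 2 * |B|)
      + C' * (at' ^ 2 + bt' ^ 2) + C' * ρ ^ N0 := by ring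
  rw [fin]
  linarith

end Pool.Agent.Helper33.KV
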