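import Pool.Agent.Helper48.KV.GoalsJ

/-!
# PROJECT KV (MP_66be51_an), packet JW: calculus of the weights `hJ, QJ, PJ, RJ, EJ`
-/

open MeasureTheory Set Filter Topology

noncomputable section

namespace Pool.Agent.Helper19.KV

open Pool.Agent.Helper48.KV

/-- The monomials `z^a s^b`, `s = 3t + rz`. -/
def Mo (a b r t z : ℝ) : ℝ := z ^ a * (3 * t + r * z) ^ b

lemma Mo_pos {a b r t z : ℝ} (hz : 0 < z) (hs : 0 < 3 * t + r * z) : 0 < Mo a b r t z :=
  mul_pos (Real.rpow_pos_of_pos hz a) (Real.rpow_pos_of_pos hs b)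

lemma Mo_sub_left {a b r t z : ℝ} (hz : 0 < z) : Mo (a - 1) b r t z = Mo a b r t z / z := by
  unfold Mo
  rw [Real.rpow_sub_one hz.ne']
  ring

lemma Mo_sub_right {a b r t z : ℝ} (hs : 0 < 3 * t + r * z) :
    Mo a (b - 1) r t z = Mo a b r t z / (3 * t + r * z) := by
  unfold Mo
  rw [Real.rpow_sub_one hs.ne']
  ring

lemma hJ_eq {κ r t z : ℝ} (hz : 0 < z) (hs : 0 < 3 * t + r * z) :
    hJ κ r t z = Mo κ (-κ) r t z := by
  unfold hJ Mo
  rw [Real.div_rpow hz.le hs.le, Real.rpow_neg hs.le]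
  ring

lemma hasDerivAt_s (r t z : ℝ) : HasDerivAt (fun y : ℝ => 3 * t + r * y) r z := by
  have h := ((hasDerivAt_id z).const_mul r).const_add (3 * t)
  simpa using h

lemma hasDerivAt_s' (r t z : ℝ) : HasDerivAt (fun y : ℝ => 3 * y + r * z) 3 t := by
  have h := ((hasDerivAt_id t).const_mul 3).add_const (r * z)
  simpa using h

lemma hasDerivAt_Mo {a b r t z : ℝ} (hz : 0 < z) (hs : 0 < 3 * t + r * z) :
    HasDerivAt (Mo a b r t) ((a / z + b * r / (3 * t + r * z)) * Mo a b r t z) z := by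
  have h1 : HasDerivAt (fun y : ℝ => y ^ a) (a * z ^ (a - 1)) z :=
    Real.hasDerivAt_rpow_const (Or.inl hz.ne')
  have h2 : HasDerivAt (fun y : ℝ => (3 * t + r * y) ^ b)
      (r * b * (3 * t + r * z) ^ (b - 1)) z :=
    (hasDerivAt_s r t z).rpow_const (Or.inl hs.ne')
  have h3 := h1.mul h2
  rw [Real.rpow_sub_one hz.ne', Real.rpow_sub_one hs.ne'] at h3
  refine HasDerivAt.congr_deriv (f := Mo a b r t) h3 ?_
  unfold Mo
  field_simp

lemma hasDerivAt_Mo2 {a b r t z : ℝ} (hz : 0 < z) (hs : 0 < 3 * t + r * z) :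
    HasDerivAt (fun y => (a / y + b * r / (3 * t + r * y)) * Mo a b r t y)
      (((a / z + b * r / (3 * t + r * z)) ^ 2 - a / z ^ 2 - b * r ^ 2 / (3 * t + r * z) ^ 2)
        * Mo a b r t z) z := by
  have h1 : HasDerivAt (fun y : ℝ => a / y) ((0 * z - a * 1) / z ^ 2) z :=
    (hasDerivAt_const z a).div (hasDerivAt_id z) hz.ne'
  have h2 : HasDerivAt (fun y : ℝ => b * r / (3 * t + r * y))
      ((0 * (3 * t + r * z) - b * r * r) / (3 * t + r * z) ^ 2) z :=
    (hasDerivAt_const z (b * r)).div (hasDerivAt_s r t z) hs.ne'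
  have h3 := (h1.add h2).mul (hasDerivAt_Mo (a := a) (b := b) hz hs)
  refine HasDerivAt.congr_deriv h3 ?_
  simp only [Pi.add_apply]
  ring

lemma coef_abs {a b r s z : ℝ} (hz : 0 < z) (hs : 0 < s) (hr : 0 < r) (hrs : r / s ≤ 1 / z)
    (hab : |a| + |b| ≤ 3) : |a / z + b * r / s| ≤ 3 / z := by
  have hrs0 : 0 ≤ r / s := by positivity
  have hz0 : 0 ≤ 1 / z := by positivity
  calc |a / z + b * r / s| ≤ |a / z| + |b * r / s| := abs_add_le _ _
    _ = |a| * (1 / z) + |b| * (r / s) := by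
        rw [abs_div, abs_of_pos hz, mul_div_assoc, abs_mul, abs_of_nonneg hrs0]
        ring
    _ ≤ |a| * (1 / z) + |b| * (1 / z) := by
        gcongr
    _ = (|a| + |b|) * (1 / z) := by ring
    _ ≤ 3 * (1 / z) := by gcongr
    _ = 3 / z := by ring

lemma coef_abs2 {a b r s z : ℝ} (hz : 0 < z) (hs : 0 < s) (hr : 0 < r) (hrs : r / s ≤ 1 / z)
    (hab : |a| + |b| ≤ 3) :
    |(a / z + b * r / s) ^ 2 - a / z ^ 2 - b * r ^ 2 / s ^ 2| ≤ 12 / z ^ 2 := by
  have hrs0 : 0 ≤ r / s := by positivity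
  have hz0 : 0 ≤ 1 / z := by positivity
  have h1 := coef_abs hz hs hr hrs hab
  have h2 : (a / z + b * r / s) ^ 2 ≤ (3 / z) ^ 2 := by
    rw [← sq_abs]
    gcongr
  have h3 : |a / z ^ 2 + b * r ^ 2 / s ^ 2| ≤ 3 / z ^ 2 := by
    calc |a / z ^ 2 + b * r ^ 2 / s ^ 2| ≤ |a / z ^ 2| + |b * r ^ 2 / s ^ 2| := abs_add_le _ _
      _ = |a| * (1 / z) ^ 2 + |b| * (r / s) ^ 2 := by
          rw [abs_div, abs_of_pos (by positivity : (0 : ℝ) < z ^ 2), mul_div_assoc, abs_mul,
            abs_of_nonneg (by positivity : (0 : ℝ) ≤ r ^ 2 / s ^ 2)]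
          ring
      _ ≤ |a| * (1 / z) ^ 2 + |b| * (1 / z) ^ 2 := by
          gcongr
      _ = (|a| + |b|) * (1 / z) ^ 2 := by ring
      _ ≤ 3 * (1 / z) ^ 2 := by gcongr
      _ = 3 / z ^ 2 := by ring
  have h4 : (3 / z) ^ 2 = 9 / z ^ 2 := by ring
  have h5 : 12 / z ^ 2 = 9 / z ^ 2 + 3 / z ^ 2 := by ring
  rw [abs_le] at h3 ⊢
  have h6 : 0 ≤ (a / z + b * r / s) ^ 2 := sq_nonneg _
  have h7 : 0 ≤ 9 / z ^ 2 := by positivity
  constructor <;> linarith [h3.1, h3.2]

/-- Two derivative bounds for a nonnegative combination of two monomials. -/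
lemma deriv_bounds {F : ℝ → ℝ} {c1 c2 a1 b1 a2 b2 r t z : ℝ} (hr : 0 < r) (ht : 0 < t)
    (hz : 0 < z) (hc1 : 0 ≤ c1) (hc2 : 0 ≤ c2) (h1 : |a1| + |b1| ≤ 3) (h2 : |a2| + |b2| ≤ 3)
    (hF : ∀ y, 0 < y → F y = c1 * Mo a1 b1 r t y + c2 * Mo a2 b2 r t y) :
    |deriv F z| ≤ 3 / z * F z ∧ |deriv (deriv F) z| ≤ 12 / z ^ 2 * F z := by
  have hs : ∀ y : ℝ, 0 < y → 0 < 3 * t + r * y := fun y hy => by positivity
  have hd : ∀ y : ℝ, 0 < y → HasDerivAt F
      (c1 * ((a1 / y + b1 * r / (3 * t + r * y)) * Mo a1 b1 r t y)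
        + c2 * ((a2 / y + b2 * r / (3 * t + r * y)) * Mo a2 b2 r t y)) y := by
    intro y hy
    have h3 := ((hasDerivAt_Mo (a := a1) (b := b1) hy (hs y hy)).const_mul c1).add
      ((hasDerivAt_Mo (a := a2) (b := b2) hy (hs y hy)).const_mul c2)
    refine h3.congr_of_eventuallyEq ?_
    filter_upwards [Ioi_mem_nhds hy] with x hx
    simpa using hF x hx
  have hd2 : HasDerivAt (deriv F)
      (c1 * (((a1 / z + b1 * r / (3 * t + r * z)) ^ 2 - a1 / z ^ 2
          - b1 * r ^ 2 / (3 * t + r * z) ^ 2) * Mo a1 b1 r t z)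
        + c2 * (((a2 / z + b2 * r / (3 * t + r * z)) ^ 2 - a2 / z ^ 2
          - b2 * r ^ 2 / (3 * t + r * z) ^ 2) * Mo a2 b2 r t z)) z := by
    have h3 := ((hasDerivAt_Mo2 (a := a1) (b := b1) hz (hs z hz)).const_mul c1).add
      ((hasDerivAt_Mo2 (a := a2) (b := b2) hz (hs z hz)).const_mul c2)
    refine h3.congr_of_eventuallyEq ?_
    filter_upwards [Ioi_mem_nhds hz] with x hx
    simpa using (hd x hx).deriv
  have hrs : r / (3 * t + r * z) ≤ 1 / z := by
    rw [div_le_div_iff₀ (hs z hz) hz]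
    nlinarith
  have hM1 : 0 < Mo a1 b1 r t z := Mo_pos hz (hs z hz)
  have hM2 : 0 < Mo a2 b2 r t z := Mo_pos hz (hs z hz)
  rw [(hd z hz).deriv, hd2.deriv, hF z hz]
  constructor
  · have e1 := coef_abs hz (hs z hz) hr hrs h1
    have e2 := coef_abs hz (hs z hz) hr hrs h2
    refine (abs_add_le _ _).trans ?_
    rw [abs_mul, abs_mul, abs_mul, abs_mul, abs_of_nonneg hc1, abs_of_nonneg hc2,
      abs_of_pos hM1, abs_of_pos hM2]
    calc _ ≤ c1 * (3 / z * Mo a1 b1 r t z) + c2 * (3 / z * Mo a2 b2 r t z) := by gcongr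
      _ = _ := by ring
  · have e1 := coef_abs2 hz (hs z hz) hr hrs h1
    have e2 := coef_abs2 hz (hs z hz) hr hrs h2
    refine (abs_add_le _ _).trans ?_
    rw [abs_mul, abs_mul, abs_mul, abs_mul, abs_of_nonneg hc1, abs_of_nonneg hc2,
      abs_of_pos hM1, abs_of_pos hM2]
    calc _ ≤ c1 * (12 / z ^ 2 * Mo a1 b1 r t z) + c2 * (12 / z ^ 2 * Mo a2 b2 r t z) := by gcongr
      _ = _ := by ring

lemma hasDerivAt_hJ {κ r t z : ℝ} (hr : 0 < r) (ht : 0 < t) (hz : 0 < z) :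
    HasDerivAt (hJ κ r t) (hJ κ r t z * (3 * κ * t / (z * (3 * t + r * z)))) z := by
  have hs : 0 < 3 * t + r * z := by positivity
  have h := hasDerivAt_Mo (a := κ) (b := -κ) hz hs
  have h2 : HasDerivAt (hJ κ r t)
      ((κ / z + -κ * r / (3 * t + r * z)) * Mo κ (-κ) r t z) z := by
    refine h.congr_of_eventuallyEq ?_
    filter_upwards [Ioi_mem_nhds hz] with x hx
    have hx' : (0 : ℝ) < x := hx
    exact hJ_eq hx' (by positivity)
  refine h2.congr_deriv ?_
  rw [hJ_eq hz hs]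
  field_simp
  ring

lemma hasDerivAt_hJ_t {κ r t z : ℝ} (hr : 0 < r) (ht : 0 < t) (hz : 0 < z) :
    HasDerivAt (fun s => hJ κ r s z) (-(3 * κ / (3 * t + r * z)) * hJ κ r t z) t := by
  have hs : 0 < 3 * t + r * z := by positivity
  have h1 : HasDerivAt (fun y : ℝ => (3 * y + r * z) ^ (-κ))
      (3 * (-κ) * (3 * t + r * z) ^ (-κ - 1)) t :=
    (hasDerivAt_s' r t z).rpow_const (Or.inl hs.ne')
  have h2 := h1.const_mul (z ^ κ)
  have h3 : HasDerivAt (fun s => hJ κ r s z)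
      (z ^ κ * (3 * (-κ) * (3 * t + r * z) ^ (-κ - 1))) t := by
    refine h2.congr_of_eventuallyEq ?_
    filter_upwards [Ioi_mem_nhds ht] with x hx
    have hx' : (0 : ℝ) < x := hx
    exact hJ_eq hz (by positivity)
  refine h3.congr_deriv ?_
  rw [hJ_eq hz hs, Real.rpow_sub_one hs.ne']
  unfold Mo
  field_simp

lemma RJ_eq {κ r t z : ℝ} (hz : 0 < z) (hs : 0 < 3 * t + r * z) :
    RJ κ r t z = 9 * κ * t ^ 2 * (1 - κ) * Mo (κ - 2) (-κ - 1) r t z
      + 9 * κ * t ^ 2 * ((1 + κ) * r) * Mo (κ - 1) (-κ - 2) r t z := by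
  have e1 : Mo (κ - 2) (-κ - 1) r t z = Mo κ (-κ) r t z / z / z / (3 * t + r * z) := by
    rw [Mo_sub_right hs, show κ - 2 = κ - 1 - 1 by ring, Mo_sub_left hz, Mo_sub_left hz]
  have e2 : Mo (κ - 1) (-κ - 2) r t z
      = Mo κ (-κ) r t z / z / (3 * t + r * z) / (3 * t + r * z) := by
    rw [show -κ - 2 = -κ - 1 - 1 by ring, Mo_sub_right hs, Mo_sub_right hs, Mo_sub_left hz]
  rw [e1, e2]
  unfold RJ QJ
  rw [hJ_eq hz hs]
  generalize Mo κ (-κ) r t z = M
  have hs' := hs.ne'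
  have hz' := hz.ne'
  generalize 3 * t + r * z = s at hs'
  field_simp

lemma EJ_eq {κ r t z : ℝ} (ht : 0 < t) (hz : 0 < z) (hs : 0 < 3 * t + r * z) :
    EJ κ r t z = 3 * κ * t * (1 - κ) * Mo (κ - 1) (-κ - 1) r t z
      + 3 * κ * t * ((1 + κ) * r) * Mo κ (-κ - 2) r t z := by
  have e1 : Mo (κ - 1) (-κ - 1) r t z = Mo κ (-κ) r t z / z / (3 * t + r * z) := by
    rw [Mo_sub_right hs, Mo_sub_left hz]
  have e2 : Mo κ (-κ - 2) r t z
      = Mo κ (-κ) r t z / (3 * t + r * z) / (3 * t + r * z) := by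
    rw [show -κ - 2 = -κ - 1 - 1 by ring, Mo_sub_right hs, Mo_sub_right hs]
  rw [e1, e2]
  unfold EJ RJ QJ
  rw [hJ_eq hz hs]
  generalize Mo κ (-κ) r t z = M
  have hs' := hs.ne'
  have hz' := hz.ne'
  have ht' := ht.ne'
  generalize 3 * t + r * z = s at hs'
  field_simp
  ring

theorem jw : S_JW := by
  intro κ r t z hκ hκ4 hr ht hz
  have hs : 0 < 3 * t + r * z := by positivity
  have hrz : 0 < r * z := by positivity
  have hh : 0 < hJ κ r t z := by
    rw [hJ_eq hz hs]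
    exact Mo_pos hz hs
  have hQ : 0 < QJ κ r t z := by
    unfold QJ
    positivity
  have hR : 0 < RJ κ r t z := by
    unfold RJ
    have h1 : 0 < 1 - κ := by linarith
    positivity
  have hE : 0 < EJ κ r t z := by
    unfold EJ
    positivity
  have hrs : r / (3 * t + r * z) ≤ 1 / z := by
    rw [div_le_div_iff₀ hs hz]
    nlinarith
  have hRQ : RJ κ r t z ≤ 2 / z * QJ κ r t z := by
    unfold RJ
    have h1 : (1 - κ) / z + (1 + κ) * r / (3 * t + r * z) ≤ 2 / z := by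
      calc (1 - κ) / z + (1 + κ) * r / (3 * t + r * z)
          = (1 - κ) / z + (1 + κ) * (r / (3 * t + r * z)) := by ring
        _ ≤ (1 - κ) / z + (1 + κ) * (1 / z) := by gcongr
        _ = 2 / z := by ring
    calc QJ κ r t z * ((1 - κ) / z + (1 + κ) * r / (3 * t + r * z)) ≤ QJ κ r t z * (2 / z) := by
          gcongr
      _ = 2 / z * QJ κ r t z := by ring
  have hdh := hasDerivAt_hJ (κ := κ) hr ht hz
  have hdht := hasDerivAt_hJ_t (κ := κ) hr ht hz
  have hdR := deriv_bounds (F := RJ κ r t) (c1 := 9 * κ * t ^ 2 * (1 - κ))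
    (c2 := 9 * κ * t ^ 2 * ((1 + κ) * r)) (a1 := κ - 2) (b1 := -κ - 1) (a2 := κ - 1)
    (b2 := -κ - 2) hr ht hz (by have : 0 ≤ 1 - κ := by linarith
                                positivity) (by positivity)
    (by rw [abs_of_neg (by linarith), abs_of_neg (by linarith)]; linarith)
    (by rw [abs_of_neg (by linarith), abs_of_neg (by linarith)]; linarith)
    (fun y hy => RJ_eq hy (by positivity))
  have hdE := deriv_bounds (F := EJ κ r t) (c1 := 3 * κ * t * (1 - κ))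
    (c2 := 3 * κ * t * ((1 + κ) * r)) (a1 := κ - 1) (b1 := -κ - 1) (a2 := κ)
    (b2 := -κ - 2) hr ht hz (by have : 0 ≤ 1 - κ := by linarith
                                positivity) (by positivity)
    (by rw [abs_of_neg (by linarith), abs_of_neg (by linarith)]; linarith)
    (by rw [abs_of_pos hκ, abs_of_neg (by linarith)]; linarith)
    (fun y hy => EJ_eq ht hy (by positivity))
  refine ⟨?_, ?_, ?_, ?_, ?_, hh, ?_, ?_, hQ, ?_, hR, hRQ, hE, ?_, hdR.1, hdR.2, hdE.1, hdE.2,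
    ?_, ?_⟩
  · refine hdh.congr_deriv ?_
    unfold QJ
    field_simp
    ring
  · have h1 : HasDerivAt (fun y : ℝ => y * (3 * t + r * y)) (1 * (3 * t + r * z) + z * r) z :=
      (hasDerivAt_id z).mul (hasDerivAt_s r t z)
    have h2 := (hdh.const_mul (9 * κ * t ^ 2)).div h1 (by positivity)
    refine HasDerivAt.congr_deriv (f := QJ κ r t) h2 ?_
    unfold RJ QJ
    field_simp
    ring
  · have h1 : HasDerivAt (fun y : ℝ => 1 - 3 * κ * t / (3 * t + r * y))
        (-((0 * (3 * t + r * z) - 3 * κ * t * r) / (3 * t + r * z) ^ 2)) z :=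
      ((hasDerivAt_const z (3 * κ * t)).div (hasDerivAt_s r t z) hs.ne').const_sub 1
    have h2 := hdh.mul h1
    refine HasDerivAt.congr_deriv (f := PJ κ r t) h2 ?_
    unfold EJ RJ QJ
    field_simp
    ring
  · have h0 : HasDerivAt (fun y : ℝ => 9 * κ * y ^ 2) (9 * κ * (2 * t)) t := by
      have := (hasDerivAt_pow 2 t).const_mul (9 * κ)
      simpa using this
    have h1 : HasDerivAt (fun y : ℝ => z * (3 * y + r * z)) (z * 3) t :=
      (hasDerivAt_s' r t z).const_mul z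
    have h2 := (h0.mul hdht).div h1 (by positivity)
    refine HasDerivAt.congr_deriv (f := fun s => QJ κ r s z) h2 ?_
    simp only [Pi.mul_apply]
    unfold EJ RJ QJ
    field_simp
    ring
  · have h0 : HasDerivAt (fun y : ℝ => 3 * κ * y) (3 * κ) t := by
      have := (hasDerivAt_id t).const_mul (3 * κ)
      simpa using this
    have h1 : HasDerivAt (fun y : ℝ => 1 - 3 * κ * y / (3 * y + r * z))
        (-((3 * κ * (3 * t + r * z) - 3 * κ * t * 3) / (3 * t + r * z) ^ 2)) t :=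
      (h0.div (hasDerivAt_s' r t z) hs.ne').const_sub 1
    have h2 := hdht.mul h1
    refine HasDerivAt.congr_deriv (f := fun s => PJ κ r s z) h2 ?_
    unfold EJ RJ QJ
    field_simp
    ring
  · unfold PJ
    have h1 : 3 * κ * t / (3 * t + r * z) ≤ κ := by
      rw [div_le_iff₀ hs]
      nlinarith
    nlinarith
  · unfold PJ
    have h1 : 0 ≤ 3 * κ * t / (3 * t + r * z) := by positivity
    nlinarith
  · unfold QJ
    rw [div_mul_eq_mul_div, div_le_div_iff₀ (by positivity) hz]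
    have h1 : 0 ≤ 3 * κ * t * hJ κ r t z * z * (r * z) := by positivity
    nlinarith
  · unfold EJ
    calc z / (3 * t) * RJ κ r t z ≤ z / (3 * t) * (2 / z * QJ κ r t z) := by gcongr
      _ = 2 / (3 * t) * QJ κ r t z := by field_simp
  · unfold hJ
    apply Real.rpow_le_rpow (by positivity) _ hκ.le
    apply div_le_div_of_nonneg_left hz.le (by positivity)
    linarith
  · intro hrt
    unfold hJ
    apply Real.rpow_le_rpow (by positivity) _ hκ.le
    apply div_le_div_of_nonneg_left hz.le hs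
    linarith

end Pool.Agent.Helper19.KV
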